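import Pool.Agent.H27.L1.H34.GM.Targets2

/-!
Forms are bounded.
-/

namespace Pool.Agent.H27.L1.H34.GM

open MeasureTheory

theorem bdd_aN_pos {m : ℕ} {g : Mat m} (hg : g.det ≠ 0) : 0 < aN g :=
  Real.rpow_pos_of_pos (abs_pos.2 hg) _

theorem bdd_aN_pow {m : ℕ} (hm : 1 ≤ m) (g : Mat m) : aN g ^ m = |g.det| := by
  rw [aN, ← Real.rpow_natCast, ← Real.rpow_mul (abs_nonneg _), one_div,
    inv_mul_cancel₀ (by positivity), Real.rpow_one]

theorem bdd_norm {m : ℕ} (hm : 1 ≤ m) {g : Mat m} (hg : g.det ≠ 0) :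
    |((aN g)⁻¹ • g).det| = 1 := by
  rw [Matrix.det_smul, Fintype.card_fin, abs_mul, abs_pow, abs_inv, abs_of_pos (bdd_aN_pos hg),
    inv_pow, bdd_aN_pow hm, inv_mul_cancel₀ (abs_pos.2 hg).ne']

theorem bdd_compact (m : ℕ) (C : ℝ) : IsCompact {z : V m | sz (mt z) ≤ C ∧ |(mt z).det| = 1} := by
  apply Metric.isCompact_of_isClosed_isBounded
  · have h1 : Continuous fun z : V m => sz (mt z) := by
      change Continuous fun z : V m => ‖z‖
      exact continuous_norm
    have h2 : Continuous fun z : V m => |(mt z).det| := by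
      have : Continuous fun z : V m => (mt z) := continuous_id
      exact this.matrix_det.abs
    exact (isClosed_le h1 continuous_const).inter (isClosed_eq h2 continuous_const)
  · apply (Metric.isBounded_closedBall (x := (0 : V m)) (r := C)).subset
    intro z hz
    rw [mem_closedBall_zero_iff]
    exact hz.1

theorem pf_BDD : T_NRD → T_CMP → T_BDD := by
  intro hNRD hCMP m q O b d R _ _ π σ T D hS F lam mu hF
  have hm := hS.ord.one_le
  obtain ⟨_, _, _, hun⟩ := hNRD m O b hm hS.ord.ord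
  obtain ⟨C, hC, hcmp⟩ := hCMP m O b hm hS.ord.ord
  have hK := bdd_compact m C
  have hcont : ∀ x : R, ∃ M, ∀ z ∈ {z : V m | sz (mt z) ≤ C ∧ |(mt z).det| = 1},
      ‖F (mt z) x‖ ≤ M := by
    intro x
    apply hK.exists_bound_of_continuousOn
    apply (hF.cont x).comp (t := {g : Mat m | g.det ≠ 0})
    · exact (continuous_id : Continuous fun z : V m => (mt z)).continuousOn
    · intro z hz
      have h1 : |(mt z).det| = 1 := hz.2
      intro h0
      rw [h0, abs_zero] at h1
      exact zero_ne_one h1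
  choose M hM using hcont
  refine ⟨∑ x, |M x|, Finset.sum_nonneg fun _ _ => abs_nonneg _, ?_⟩
  intro g x hg
  have ha := bdd_aN_pos hg
  have hdet := bdd_norm hm hg
  set g' : Mat m := (aN g)⁻¹ • g with hg'
  have hg0 : g'.det ≠ 0 := by
    intro h0
    rw [h0, abs_zero] at hdet
    exact zero_ne_one hdet
  have haN : aN g' = 1 := by
    rw [aN, hdet, Real.one_rpow]
  obtain ⟨γ, hγ, hγ1, _⟩ := hcmp g' hg0
  rw [haN, mul_one] at hγ1
  have h1 : F g x = F (γ * g') (π γ * x) := by
    rw [hF.auto γ hγ g' x hg0, hg', hF.scal _ (inv_pos.2 ha) g x hg]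
  rw [h1]
  have h2 : ‖F (γ * g') (π γ * x)‖ ≤ M (π γ * x) := by
    apply hM (π γ * x) (fun i j => (γ * g') i j)
    refine ⟨hγ1, ?_⟩
    change |(γ * g').det| = 1
    rw [Matrix.det_mul, abs_mul, hun γ hγ, hdet, one_mul]
  refine h2.trans ((le_abs_self _).trans ?_)
  exact Finset.single_le_sum (f := fun x => |M x|) (fun _ _ => abs_nonneg _)
    (Finset.mem_univ (π γ * x))

end Pool.Agent.H27.L1.H34.GM
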