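import Pool.Agent.H27.L1.H34.GM.Targets2

/-!
Row THC of the board gmf: the eigenvalue of `A_r` is continuous and vanishes for small `r`.
-/

set_option autoImplicit false

namespace Pool.Agent.H27.L1.H34.GM

open MeasureTheory

theorem thc_small {m : ℕ} (hm1 : 1 ≤ m) {c b r : ℝ} (hc : 0 < c) (hb : 0 < b) (hrb : r < b)
    {n : ℕ} (hn : (c * b) ^ m < (n : ℝ)) : r * (n : ℝ) ^ (-(1 / (m : ℝ))) < c⁻¹ := by
  have hcb : 0 < c * b := mul_pos hc hb
  have hm0 : (m : ℝ) ≠ 0 := by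
    have : 0 < m := hm1
    positivity
  have hm0' : 0 < 1 / (m : ℝ) := by
    have : 0 < m := hm1
    positivity
  have h1 : c * b < (n : ℝ) ^ (1 / (m : ℝ)) := by
    have h2 : ((c * b) ^ m) ^ (1 / (m : ℝ)) = c * b := by
      rw [← Real.rpow_natCast, ← Real.rpow_mul hcb.le, mul_one_div, div_self hm0, Real.rpow_one]
    rw [← h2]
    exact Real.rpow_lt_rpow (by positivity) hn hm0'
  have hnp : 0 < (n : ℝ) ^ (1 / (m : ℝ)) := hcb.trans h1
  have h0 : 0 ≤ (n : ℝ) := Nat.cast_nonneg n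
  rw [Real.rpow_neg h0, ← div_eq_mul_inv, div_lt_iff₀ hnp]
  calc r < b := hrb
    _ = c⁻¹ * (c * b) := by field_simp
    _ < c⁻¹ * (n : ℝ) ^ (1 / (m : ℝ)) := mul_lt_mul_of_pos_left h1 (inv_pos.2 hc)

theorem pf_THC : T_TH1 → T_THC := by
  intro hTH m q Φ mu lam hm1 hΦ hmu
  obtain ⟨c, hc, hs, hcont⟩ := hTH m Φ mu hm1 hΦ hmu
  have hz : ∀ r : ℝ, 0 < r → ∀ n : ℕ, 1 ≤ n → r * (n : ℝ) ^ (-(1 / (m : ℝ))) < c⁻¹ →
      th1 Φ mu (r * (n : ℝ) ^ (-(1 / (m : ℝ)))) = 0 := by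
    intro r hr n hn hlt
    by_contra hne
    have hn0 : (0 : ℝ) < n := by exact_mod_cast hn
    exact absurd (hs _ (mul_pos hr (Real.rpow_pos_of_pos hn0 _)) hne).1 (not_le.2 hlt)
  constructor
  · intro r1 hr1
    have hr1' : (0 : ℝ) < r1 := hr1
    obtain ⟨K, hK⟩ := exists_nat_gt ((c * (r1 + 1)) ^ m)
    have hb : 0 < r1 + 1 := by linarith
    have hfin : ∀ r ∈ Set.Ioo (0 : ℝ) (r1 + 1), thF q Φ mu lam r =
        ∑ n ∈ Finset.range K, if 1 ≤ n ∧ n.Coprime q then
          (n : ℂ) ^ (((m : ℂ) - 1) / 2) * lam n * th1 Φ mu (r * (n : ℝ) ^ (-(1 / (m : ℝ))))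
          else 0 := by
      intro r hr
      refine tsum_eq_sum fun n hn => ?_
      by_cases hc1 : 1 ≤ n ∧ n.Coprime q
      · rw [if_pos hc1]
        have hKn : K ≤ n := by
          by_contra h
          exact hn (Finset.mem_range.2 (not_le.1 h))
        have h2 : (c * (r1 + 1)) ^ m < (n : ℝ) :=
          hK.trans_le (by exact_mod_cast hKn)
        rw [hz r hr.1 n hc1.1 (thc_small hm1 hc hb hr.2 h2), mul_zero]
      · rw [if_neg hc1]
    have hco : ContinuousOn (thF q Φ mu lam) (Set.Ioo (0 : ℝ) (r1 + 1)) := by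
      refine ContinuousOn.congr ?_ hfin
      refine continuousOn_finsetSum _ fun n _ => ?_
      by_cases hc1 : 1 ≤ n ∧ n.Coprime q
      · simp only [if_pos hc1]
        refine continuousOn_const.mul ?_
        refine hcont.comp (continuousOn_id.mul continuousOn_const) ?_
        intro r hr
        have hn0 : (0 : ℝ) < n := by exact_mod_cast hc1.1
        exact mul_pos hr.1 (Real.rpow_pos_of_pos hn0 _)
      · simp only [if_neg hc1]
        exact continuousOn_const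
    exact (hco.continuousAt (Ioo_mem_nhds hr1' (by linarith))).continuousWithinAt
  · refine ⟨c⁻¹, inv_pos.2 hc, fun r hr hrc => ?_⟩
    have : ∀ n : ℕ, (if 1 ≤ n ∧ n.Coprime q then
        (n : ℂ) ^ (((m : ℂ) - 1) / 2) * lam n * th1 Φ mu (r * (n : ℝ) ^ (-(1 / (m : ℝ))))
        else 0) = 0 := by
      intro n
      by_cases hc1 : 1 ≤ n ∧ n.Coprime q
      · rw [if_pos hc1]
        have hn0 : (1 : ℝ) ≤ n := by exact_mod_cast hc1.1
        have hle : (n : ℝ) ^ (-(1 / (m : ℝ))) ≤ 1 :=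
          Real.rpow_le_one_of_one_le_of_nonpos hn0 (by
            have : (0 : ℝ) ≤ 1 / (m : ℝ) := by positivity
            linarith)
        have : r * (n : ℝ) ^ (-(1 / (m : ℝ))) < c⁻¹ :=
          lt_of_le_of_lt (mul_le_of_le_one_right hr.le hle) hrc
        rw [hz r hr n hc1.1 this, mul_zero]
      · rw [if_neg hc1]
    unfold thF
    simp only [this, tsum_zero]

end Pool.Agent.H27.L1.H34.GM
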