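import Pool.Agent.H27.L1.H34.GM.Defs

/-!
Targets of the board gm4 (page H34_GM.md).
-/

namespace Pool.Agent.H27.L1.H34.GM

open MeasureTheory

/-! ### algebra -/

def T_CHP : Prop := ∀ (m : ℕ) (O : Subring (Mat m)) (b : Module.Basis (Fin m × Fin m) ℝ (Mat m)),
  1 ≤ m → DivOrder m O b → ∀ α ∈ O, ∃ p : Polynomial ℤ,
    p.map (Int.castRingHom ℝ) = Matrix.charpoly α

def T_NRD : Prop := ∀ (m : ℕ) (O : Subring (Mat m)) (b : Module.Basis (Fin m × Fin m) ℝ (Mat m)),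
  1 ≤ m → DivOrder m O b →
    (∀ α ∈ O, ∃ k : ℤ, α.trace = k) ∧ (∀ α ∈ O, ∃ k : ℤ, α.det = k) ∧
    (∀ α ∈ O, α ≠ 0 → ∃ n : ℕ, 1 ≤ n ∧ |α.det| = n) ∧
    ∀ γ ∈ UnitsOf O, |γ.det| = 1

def T_UNQ : Prop := ∀ (m : ℕ) (O : Subring (Mat m)) (b : Module.Basis (Fin m × Fin m) ℝ (Mat m))
  (q : ℕ) (R : Type) [Ring R] [Fintype R] (π : Mat m → R) (σ : R → Mat m),
  1 ≤ m → DivOrder m O b → 1 ≤ q → Red m q O π σ →
    Fintype.card R = q ^ (m ^ 2) ∧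
    ∀ α ∈ O, ∀ n : ℕ, 1 ≤ n → |α.det| = n → (IsUnit (π α) ↔ n.Coprime q)

def T_PSI : Prop := ∀ (m : ℕ) (O : Subring (Mat m)) (b : Module.Basis (Fin m × Fin m) ℝ (Mat m))
  (d : ℤ) (q : ℕ) (R : Type) [Ring R] [Fintype R] (π : Mat m → R) (σ : R → Mat m),
  Ord m O b d → Lev m q O d π σ →
    (∀ α ∈ O, psi q σ (π α) = ee (α.trace / q)) ∧ psi q σ 0 = 1 ∧
    (∀ x y, psi q σ (x + y) = psi q σ x * psi q σ y) ∧ (∀ x, ‖psi q σ x‖ = 1) ∧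
    (∀ x y, psi q σ (x * y) = psi q σ (y * x)) ∧
    ∀ x, (∀ y, psi q σ (x * y) = 1) → x = 0

def T_DUA : Prop := ∀ (m : ℕ) (O : Subring (Mat m)) (b : Module.Basis (Fin m × Fin m) ℝ (Mat m))
  (d : ℤ) (q : ℕ) (R : Type) [Ring R] [Fintype R] (π : Mat m → R) (σ : R → Mat m),
  Ord m O b d → Lev m q O d π σ →
    IsUnit (d : R) ∧ d ≠ 0 ∧
    (∀ β ∈ Dual O, ((d : ℝ) • β) ∈ O) ∧
    (∀ β ∈ Dual O, ∀ α ∈ O, ee ((β * α).trace / q) = psi q σ (bt d π β * π α)) ∧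
    (∀ β ∈ Dual O, ∀ β' ∈ Dual O, β + β' ∈ Dual O) ∧
    (∀ β ∈ Dual O, ∀ γ ∈ UnitsOf O, γ * β ∈ Dual O ∧ bt d π (γ * β) = π γ * bt d π β ∧
      β * γ ∈ Dual O ∧ bt d π (β * γ) = bt d π β * π γ)

def T_FIC : Prop := ∀ (m : ℕ) (O : Subring (Mat m)) (b : Module.Basis (Fin m × Fin m) ℝ (Mat m)),
  1 ≤ m → DivOrder m O b → ∀ N : ℝ, ∃ A : Finset (Mat m), (∀ a ∈ A, a ∈ O ∧ a ≠ 0) ∧
    ∀ α ∈ O, α ≠ 0 → |α.det| ≤ N → ∃ a ∈ A, ∃ γ ∈ UnitsOf O, α = a * γ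

def T_MNK : Prop := ∀ (m : ℕ) (O : Subring (Mat m)) (b : Module.Basis (Fin m × Fin m) ℝ (Mat m)),
  1 ≤ m → DivOrder m O b → ∃ C : ℝ, 0 < C ∧ ∀ g : Mat m, g.det ≠ 0 →
    ∃ α ∈ O, α ≠ 0 ∧ sz (α * g) ≤ C * aN g

def T_CMP : Prop := ∀ (m : ℕ) (O : Subring (Mat m)) (b : Module.Basis (Fin m × Fin m) ℝ (Mat m)),
  1 ≤ m → DivOrder m O b → ∃ C : ℝ, 0 < C ∧ ∀ g : Mat m, g.det ≠ 0 →
    ∃ γ ∈ UnitsOf O, sz (γ * g) ≤ C * aN g ∧ sz ((γ * g)⁻¹) ≤ C * (aN g)⁻¹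

/-- number of classes of given determinant -/
def T_TNB : Prop := ∀ (m : ℕ) (O : Subring (Mat m)) (b : Module.Basis (Fin m × Fin m) ℝ (Mat m)),
  1 ≤ m → DivOrder m O b → ∃ C : ℝ, ∀ T : ℕ → Finset (Mat m), Reps m O T →
    ∀ n : ℕ, 1 ≤ n → ((T n).card : ℝ) ≤ C * (n : ℝ) ^ m

/-! ### geometry of numbers -/

/-- packing: the constant depends only on the dimension and on `s` -/
def T_PK : Prop := ∀ (D : ℕ) (s : ℝ), (D : ℝ) < s → ∃ C : ℝ, 0 < C ∧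
  ∀ (E : Type) [NormedAddCommGroup E] [NormedSpace ℝ E] (W : Submodule ℝ E)
    [FiniteDimensional ℝ W], Module.finrank ℝ W ≤ D → ∀ (Λ : AddSubgroup E) (l : ℝ), 0 < l →
    (∀ v ∈ Λ, v ∈ W) → (∀ v ∈ Λ, v ≠ 0 → l ≤ ‖v‖) →
    ∑' v : Λ, ENNReal.ofReal (‖(v : E)‖ ^ (-s)) ≤ ENNReal.ofReal (C * l ^ (-s))

open Classical in
def T_EN : Prop := ∀ (m : ℕ) (O : Subring (Mat m)) (b : Module.Basis (Fin m × Fin m) ℝ (Mat m)),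
  1 ≤ m → DivOrder m O b → ∀ s : ℝ, (m : ℝ) ^ 2 < s → ∃ C : ℝ, 0 < C ∧ ∀ r : ℝ, 0 < r →
    ∑' p : (O × O) × (O × O),
      (if p.1.1 ≠ 0 ∧ p.1.2 ≠ 0 ∧ p.2.1 ≠ 0 ∧ p.2.2 ≠ 0 ∧ p.1.2 * p.1.1 = p.2.2 * p.2.1 then
        ENNReal.ofReal (((1 + sz (p.1.1 : Mat m) / r) * (1 + sz (p.1.2 : Mat m) / r) *
          (1 + sz (p.2.1 : Mat m) / r) * (1 + sz (p.2.2 : Mat m) / r)) ^ (-s)) else 0) ≤
      ENNReal.ofReal (C * r ^ (2 * s))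

open Classical in
def T_GC : Prop := ∀ (m : ℕ) (O : Subring (Mat m)) (b : Module.Basis (Fin m × Fin m) ℝ (Mat m)),
  1 ≤ m → DivOrder m O b → ∀ s : ℝ, (m : ℝ) ^ 2 < s → ∃ C : ℝ, 0 < C ∧ ∀ q : ℕ, 1 ≤ q →
    ∀ c ∈ O, ∑' w : O, ENNReal.ofReal ((1 + sz (c + (q : ℝ) • (w : Mat m)) / q) ^ (-s)) ≤
      ENNReal.ofReal C

open Classical in
/-- the discrete part of the Hilbert-Schmidt bound -/
def T_HSL : Prop := ∀ (m : ℕ) (O : Subring (Mat m)) (b : Module.Basis (Fin m × Fin m) ℝ (Mat m))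
  (d : ℤ), Ord m O b d → ∀ s B : ℝ, (m : ℝ) ^ 2 < s → 1 ≤ B → ∃ C : ℝ, 0 < C ∧
  ∀ (q : ℕ) (R : Type) [Ring R] [Fintype R] (π : Mat m → R) (σ : R → Mat m),
    Lev m q O d π σ → ∀ v : Rˣ, (∀ a : R, (v : R) * a = a * v) → ∀ r : ℝ, 0 < r →
    r ≤ B * Real.sqrt q →
    ∑' x : Rˣ, ∑' z : Rˣ, (∑' p : O × O,
      (if π (p.2 : Mat m) * (π (p.1 : Mat m) * (x : R)) = (v : R) * (z : R) then
        ENNReal.ofReal (((1 + sz (p.1 : Mat m) / r) * (1 + sz (p.2 : Mat m) / r)) ^ (-(2 * s)))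
        else 0)) ^ 2 ≤ ENNReal.ofReal (C * (q : ℝ) ^ (m ^ 2) * r ^ (2 * s))

def T_HS : Prop := ∀ (m : ℕ) (O : Subring (Mat m)) (b : Module.Basis (Fin m × Fin m) ℝ (Mat m))
  (d : ℤ), Ord m O b d → ∀ s B : ℝ, (m : ℝ) ^ 2 < s → 1 ≤ B → ∃ C : ℝ, 0 < C ∧
  ∀ (q : ℕ) (R : Type) [Ring R] [Fintype R] (π : Mat m → R) (σ : R → Mat m),
    Lev m q O d π σ → ∀ u : Rˣ, (∀ a : R, (u : R) * a = a * u) → ∀ r : ℝ, 0 < r →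
    r ≤ B * Real.sqrt q → ∀ D : Set (V m), Dom m O D →
    ∫⁻ g in D, ∫⁻ k in D, ∑' x : Rˣ, ∑' z : Rˣ, (∑' y : Rˣ, ∫⁻ h in D,
      Kp O π u (2 * s) r (mt g) x (mt h) y * Kp O π u (2 * s) r (mt h) y (mt k) z ∂(hm m)) ^ 2
      ∂(hm m) ∂(hm m) ≤ ENNReal.ofReal (C * (q : ℝ) ^ (m ^ 2) * r ^ (2 * s))

/-! ### measure theory on `GL_m(R)` -/

/-- invariance of the Haar measure -/
def T_HAR : Prop := ∀ (m : ℕ), 1 ≤ m →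
    (∀ (a : Mat m), a.det ≠ 0 → ∀ f : V m → ENNReal, Measurable f →
      ∫⁻ z, f (fun i j => (a * mt z) i j) ∂(hm m) = ∫⁻ z, f z ∂(hm m) ∧
      ∫⁻ z, f (fun i j => (mt z * a) i j) ∂(hm m) = ∫⁻ z, f z ∂(hm m)) ∧
    (∀ f : V m → ENNReal, Measurable f →
      ∫⁻ z, f (fun i j => ((mt z)⁻¹) i j) ∂(hm m) = ∫⁻ z, f z ∂(hm m)) ∧
    hm m {z | (mt z).det = 0} = 0 ∧
    ∀ c : ℝ, 0 < c → hm m {z | sz (mt z) ≤ c ∧ c⁻¹ ≤ |(mt z).det|} < ⊤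

/-- the same for complex integrals -/
def T_HAC : Prop := ∀ (m : ℕ), 1 ≤ m →
    (∀ (a : Mat m), a.det ≠ 0 → ∀ f : V m → ℂ,
      ∫ z, f (fun i j => (a * mt z) i j) ∂(hm m) = ∫ z, f z ∂(hm m) ∧
      ∫ z, f (fun i j => (mt z * a) i j) ∂(hm m) = ∫ z, f z ∂(hm m)) ∧
    (∀ f : V m → ℂ, ∫ z, f (fun i j => ((mt z)⁻¹) i j) ∂(hm m) = ∫ z, f z ∂(hm m))

/-- polar coordinates, non negative functions -/
def T_PLR : Prop := ∀ (m : ℕ), 1 ≤ m → ∀ f : V m → ENNReal, Measurable f →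
    ∫⁻ z, f z ∂(hm m) = ∫⁻ r in Set.Ioi (0 : ℝ), (∫⁻ z in Shell m,
      f ((r * (aN (mt z))⁻¹) • z) ∂(hm m)) * ENNReal.ofReal r⁻¹

/-- polar coordinates for integrable functions, and shells against smooth cut-offs -/
def T_PLC : Prop := ∀ (m : ℕ), 1 ≤ m →
    (∀ f : V m → ℂ, Integrable f (hm m) →
      (∀ᵐ r ∂(volume.restrict (Set.Ioi (0 : ℝ))),
        IntegrableOn (fun z => f ((r * (aN (mt z))⁻¹) • z)) (Shell m) (hm m)) ∧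
      IntegrableOn (fun r : ℝ => (∫ z in Shell m, f ((r * (aN (mt z))⁻¹) • z) ∂(hm m)) * (r : ℂ)⁻¹)
        (Set.Ioi (0 : ℝ)) ∧
      ∫ z, f z ∂(hm m) = ∫ r in Set.Ioi (0 : ℝ),
        (∫ z in Shell m, f ((r * (aN (mt z))⁻¹) • z) ∂(hm m)) * (r : ℂ)⁻¹) ∧
    (∀ (f : V m → ℂ) (η : ℝ → ℝ), Continuous η → (∃ c > 1, ∀ t, η t ≠ 0 → c⁻¹ ≤ t ∧ t ≤ c) →
      ∫ t in Set.Ioi (0 : ℝ), η t / t = 1 → IntegrableOn f (Shell m) (hm m) →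
      (∀ c : ℝ, 0 < c → ∀ z, f (c • z) = f z) →
      Integrable (fun z => f z * (η (aN (mt z)) : ℂ)) (hm m) ∧
      ∫ z in Shell m, f z ∂(hm m) = ∫ z, f z * (η (aN (mt z)) : ℂ) ∂(hm m))

/-- covering: integrals of invariant non negative functions over a fundamental domain -/
def T_COV : Prop := ∀ (m : ℕ) (O : Subring (Mat m)) (b : Module.Basis (Fin m × Fin m) ℝ (Mat m)),
  1 ≤ m → DivOrder m O b → ∀ D : Set (V m), Dom m O D → ∀ Ω : Set (V m), MeasurableSet Ω →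
    (∀ z ∈ Shell m, ∃ γ ∈ UnitsOf O, ((fun i j => (γ * mt z) i j) : V m) ∈ Ω) →
    ∀ f : V m → ENNReal, Measurable f →
    (∀ γ ∈ UnitsOf O, ∀ z : V m, (mt z).det ≠ 0 → f (fun i j => (γ * mt z) i j) = f z) →
    ∫⁻ z in D, f z ∂(hm m) ≤ ∫⁻ z in Ω, f z ∂(hm m)

/-- unfolding over a fundamental domain -/
def T_UNF : Prop := ∀ (m : ℕ) (O : Subring (Mat m)) (b : Module.Basis (Fin m × Fin m) ℝ (Mat m)),
  1 ≤ m → DivOrder m O b → ∀ D : Set (V m), Dom m O D →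
    (∀ f : V m → ENNReal, Measurable f →
      ∫⁻ z in Shell m, f z ∂(hm m) =
        ∫⁻ z in D, ∑' γ : UnitsOf O, f (fun i j => ((γ : Mat m) * mt z) i j) ∂(hm m)) ∧
    (∀ f : V m → ℂ, IntegrableOn f (Shell m) (hm m) →
      IntegrableOn (fun z => ∑' γ : UnitsOf O, f (fun i j => ((γ : Mat m) * mt z) i j)) D
        (hm m) ∧
      (∀ᵐ z ∂((hm m).restrict D),
        Summable fun γ : UnitsOf O => f (fun i j => ((γ : Mat m) * mt z) i j)) ∧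
      ∫ z in Shell m, f z ∂(hm m) =
        ∫ z in D, ∑' γ : UnitsOf O, f (fun i j => ((γ : Mat m) * mt z) i j) ∂(hm m))

/-- finiteness of the integrated lattice sums, and their smallness, uniformly in `g` -/
def T_FNT : Prop := ∀ (m : ℕ) (O : Subring (Mat m)) (b : Module.Basis (Fin m × Fin m) ℝ (Mat m))
  (d : ℤ), Ord m O b d → d ≠ 0 → ∀ N : ℝ, (m : ℝ) ^ 2 < N →
    ∃ C : ℝ, 0 < C ∧ ∀ D : Set (V m), Dom m O D → hm m D < ⊤ ∧ ∀ r : ℝ, 0 < r →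
    ∀ g : Mat m, g.det ≠ 0 →
    (∫⁻ z in D, ∑' α : O, (if α = 0 then 0 else
      ENNReal.ofReal ((1 + sz (kk r (mt z) (α : Mat m) g)) ^ (-N))) ∂(hm m) ≤
        ENNReal.ofReal (C * r ^ N)) ∧
    (∫⁻ z in D, ∑' β : Dual O, (if (β : Mat m) = 0 then 0 else
      ENNReal.ofReal ((1 + sz (kk r g (β : Mat m) (mt z))) ^ (-N))) ∂(hm m) ≤
        ENNReal.ofReal (C * r ^ N))

end Pool.Agent.H27.L1.H34.GM
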