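import Pool.Agent.H27.L1.H34.GM.Targets

/-!
Row PSI of the board gmf: the additive character of `O/qO` given by the trace.
-/

namespace Pool.Agent.H27.L1.H34.GM

theorem psi_ee_add (x y : ℝ) : ee (x + y) = ee x * ee y := by
  unfold ee
  rw [← Complex.exp_add]
  push_cast
  ring_nf

theorem psi_ee_int (k : ℤ) : ee (k : ℝ) = 1 := by
  unfold ee
  have h : (2 * (Real.pi : ℂ) * Complex.I * ((k : ℝ) : ℂ)) = (k : ℂ) * (2 * Real.pi * Complex.I) := by
    push_cast
    ring
  rw [h]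
  exact Complex.exp_int_mul_two_pi_mul_I k

theorem psi_ee_zero : ee 0 = 1 := by
  have := psi_ee_int 0
  simpa using this

theorem psi_ee_add_int (x : ℝ) (k : ℤ) : ee (x + k) = ee x := by
  rw [psi_ee_add, psi_ee_int, mul_one]

theorem psi_ee_norm (x : ℝ) : ‖ee x‖ = 1 := by
  unfold ee
  have h : (2 * (Real.pi : ℂ) * Complex.I * (x : ℂ)) = ((2 * Real.pi * x : ℝ) : ℂ) * Complex.I := by
    push_cast
    ring
  rw [h]
  exact Complex.norm_exp_ofReal_mul_I _

theorem psi_ee_one (x : ℝ) (h : ee x = 1) : ∃ k : ℤ, x = k := by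
  unfold ee at h
  obtain ⟨n, hn⟩ := Complex.exp_eq_one_iff.1 h
  refine ⟨n, ?_⟩
  have h2 : (2 * (Real.pi : ℂ) * Complex.I) ≠ 0 := Complex.two_pi_I_ne_zero
  have h3 : (2 * (Real.pi : ℂ) * Complex.I) * (x : ℂ) = (2 * (Real.pi : ℂ) * Complex.I) * (n : ℂ) := by
    rw [hn]
    ring
  have h4 := mul_left_cancel₀ h2 h3
  exact_mod_cast h4

section
variable {m : ℕ} {O : Subring (Mat m)} {b : Module.Basis (Fin m × Fin m) ℝ (Mat m)}
  {q : ℕ} {R : Type} [Ring R] {π : Mat m → R} {σ : R → Mat m}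

theorem psi_pi_zero (h : Red m q O π σ) : π 0 = 0 := by
  have h1 := h.add 0 O.zero_mem 0 O.zero_mem
  rw [add_zero] at h1
  exact left_eq_add.1 h1

/-- the reduction as a ring homomorphism -/
def psiHom (h : Red m q O π σ) : O →+* R where
  toFun a := π (a : Mat m)
  map_one' := h.one
  map_mul' a c := h.mul a a.2 c c.2
  map_zero' := psi_pi_zero h
  map_add' a c := h.add a a.2 c c.2

theorem psiHom_apply (h : Red m q O π σ) (a : O) : psiHom h a = π (a : Mat m) := rfl

theorem psi_pi_sub (h : Red m q O π σ) (a c : Mat m) (ha : a ∈ O) (hc : c ∈ O) :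
    π (a - c) = π a - π c := by
  have := map_sub (psiHom h) ⟨a, ha⟩ ⟨c, hc⟩
  exact this

theorem psi_int_smul_mem (k : ℤ) (a : Mat m) (ha : a ∈ O) : ((k : ℝ) • a) ∈ O := by
  have : ((k : ℝ) • a) = k • a := by
    ext i j
    simp
  rw [this]
  exact O.zsmul_mem ha k

theorem psi_pi_int_smul (h : Red m q O π σ) (k : ℤ) (a : Mat m) (ha : a ∈ O) :
    π ((k : ℝ) • a) = (k : R) * π a := by
  have h0 : ((k : ℝ) • a) = k • a := by
    ext i j
    simp
  have h1 : k • a = ((k • (⟨a, ha⟩ : O) : O) : Mat m) := rfl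
  rw [h0, h1, ← psiHom_apply h, map_zsmul, psiHom_apply, zsmul_eq_mul]

theorem psi_q_zero (h : Red m q O π σ) : (q : R) = 0 := by
  have h1 : π (((q : ℤ) : ℝ) • (1 : Mat m)) = 0 :=
    (h.ker _ (psi_int_smul_mem _ _ O.one_mem)).2 ⟨1, O.one_mem, by norm_num⟩
  rw [psi_pi_int_smul h _ _ O.one_mem, h.one, mul_one] at h1
  exact_mod_cast h1

theorem psi_psi_pi (hN : ∀ α ∈ O, ∃ k : ℤ, α.trace = k) (hq : 1 ≤ q) (h : Red m q O π σ)
    (α : Mat m) (hα : α ∈ O) : psi q σ (π α) = ee (α.trace / q) := by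
  obtain ⟨hs, he⟩ := h.sec (π α)
  have hsub : σ (π α) - α ∈ O := O.sub_mem hs hα
  have h0 : π (σ (π α) - α) = 0 := by
    rw [psi_pi_sub h _ _ hs hα, he, sub_self]
  obtain ⟨w, hw, hw2⟩ := (h.ker _ hsub).1 h0
  obtain ⟨k, hk⟩ := hN w hw
  have h2 : (σ (π α)).trace = α.trace + q * k := by
    have h3 : σ (π α) = α + (q : ℝ) • w := by
      rw [← hw2]
      abel
    rw [h3, Matrix.trace_add, Matrix.trace_smul, hk, smul_eq_mul]
  have hq0 : (q : ℝ) ≠ 0 := by positivity
  unfold psi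
  rw [h2, add_div, mul_div_cancel_left₀ _ hq0, psi_ee_add_int]

theorem psi_basis_mem (hO : DivOrder m O b) (i : Fin m × Fin m) : b i ∈ O := by
  rw [hO.lat]
  intro j
  rw [b.repr_self]
  by_cases hij : i = j
  · exact ⟨1, by simp [hij]⟩
  · exact ⟨0, by simp [Finsupp.single_eq_of_ne (Ne.symm hij)]⟩

/-- the integral Gram matrix -/
theorem psi_gram {d : ℤ} (hN : ∀ α ∈ O, ∃ k : ℤ, α.trace = k) (hO : DivOrder m O b)
    (hd : (Matrix.of fun i j => (b i * b j).trace).det = (d : ℝ)) :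
    ∃ M : Matrix (Fin m × Fin m) (Fin m × Fin m) ℤ, M.det = d ∧
      ∀ i j, (b i * b j).trace = (M i j : ℝ) := by
  have h1 : ∀ i j, ∃ k : ℤ, (b i * b j).trace = k := fun i j =>
    hN _ (O.mul_mem (psi_basis_mem hO i) (psi_basis_mem hO j))
  choose M hM using h1
  refine ⟨Matrix.of M, ?_, fun i j => by rw [hM]; rfl⟩
  have h2 : (Matrix.of fun i j => (b i * b j).trace) =
      (Matrix.of M).map (Int.castRingHom ℝ) := by
    ext i j
    simp [hM]
  rw [h2, ← RingHom.mapMatrix_apply, ← RingHom.map_det] at hd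
  exact Int.cast_injective (α := ℝ) (by simpa using hd)

theorem psi_trace_expand (α β : Mat m) :
    (α * β).trace = ∑ i, b.repr α i * (b i * β).trace := by
  conv_lhs => rw [← b.sum_repr α]
  rw [Finset.sum_mul, Matrix.trace_sum]
  refine Finset.sum_congr rfl fun i _ => ?_
  rw [smul_mul_assoc, Matrix.trace_smul, smul_eq_mul]

end

theorem pf_PSI : T_NRD → T_PSI := by
  intro hNRD m O b d q R _ _ π σ hO hL
  obtain ⟨hN, -, -, -⟩ := hNRD m O b hO.one_le hO.ord
  have h := hL.red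
  have hq := hL.two_le
  have hp := fun α hα => psi_psi_pi hN hq h α hα
  have hrep : ∀ x : R, ∃ α ∈ O, π α = x := fun x => ⟨σ x, (h.sec x).1, (h.sec x).2⟩
  have hq0 : (q : ℝ) ≠ 0 := by positivity
  refine ⟨hp, ?_, ?_, ?_, ?_, ?_⟩
  · have := hp 0 O.zero_mem
    rw [psi_pi_zero h] at this
    rw [this, Matrix.trace_zero, zero_div, psi_ee_zero]
  · intro x y
    obtain ⟨α, hα, rfl⟩ := hrep x
    obtain ⟨β, hβ, rfl⟩ := hrep y
    rw [← h.add α hα β hβ, hp _ (O.add_mem hα hβ), hp α hα, hp β hβ, Matrix.trace_add, add_div,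
      psi_ee_add]
  · intro x
    unfold psi
    exact psi_ee_norm _
  · intro x y
    obtain ⟨α, hα, rfl⟩ := hrep x
    obtain ⟨β, hβ, rfl⟩ := hrep y
    rw [← h.mul α hα β hβ, ← h.mul β hβ α hα, hp _ (O.mul_mem hα hβ), hp _ (O.mul_mem hβ hα),
      Matrix.trace_mul_comm]
  · intro x hx
    obtain ⟨α, hα, rfl⟩ := hrep x
    obtain ⟨M, hMd, hM⟩ := psi_gram hN hO.ord hO.disc
    have hk : ∀ j, ∃ k : ℤ, (α * b j).trace = q * k := by
      intro j
      have hj := psi_basis_mem hO.ord j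
      have h1 := hx (π (b j))
      rw [← h.mul α hα _ hj, hp _ (O.mul_mem hα hj)] at h1
      obtain ⟨k, hk⟩ := psi_ee_one _ h1
      refine ⟨k, ?_⟩
      rw [div_eq_iff hq0] at hk
      rw [hk]
      ring
    choose k hk using hk
    choose c hc using (hO.ord.lat α).1 hα
    -- the integral linear system
    have hsys : ∀ j, ∑ i, c i * M i j = q * k j := by
      intro j
      have h1 := hk j
      rw [psi_trace_expand (b := b)] at h1
      simp only [hc, hM] at h1
      exact_mod_cast h1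
    have hsys2 : Matrix.vecMul c M = (q : ℤ) • k := by
      funext j
      have := hsys j
      simp only [Matrix.vecMul, dotProduct, Pi.smul_apply, smul_eq_mul]
      exact this
    have hadj : d • c = (q : ℤ) • Matrix.vecMul k M.adjugate := by
      have h1 : Matrix.vecMul (Matrix.vecMul c M) M.adjugate =
          Matrix.vecMul ((q : ℤ) • k) M.adjugate := by rw [hsys2]
      rw [Matrix.vecMul_vecMul, Matrix.mul_adjugate, hMd, Matrix.vecMul_smul, Matrix.vecMul_one,
        Matrix.smul_vecMul] at h1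
      exact h1
    have hdvd : ∀ i, (q : ℤ) ∣ c i := by
      intro i
      have h1 := congrFun hadj i
      simp only [Pi.smul_apply, smul_eq_mul] at h1
      have h2 : (q : ℤ) ∣ d * c i := ⟨_, h1⟩
      exact hL.cop.symm.dvd_of_dvd_mul_left h2
    choose e he using hdvd
    refine (h.ker α hα).2 ⟨∑ i, (e i : ℝ) • b i, ?_, ?_⟩
    · exact O.sum_mem fun i _ => psi_int_smul_mem _ _ (psi_basis_mem hO.ord i)
    · conv_lhs => rw [← b.sum_repr α]
      rw [Finset.smul_sum]
      refine Finset.sum_congr rfl fun i _ => ?_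
      rw [hc, he, smul_smul]
      push_cast
      rfl

end Pool.Agent.H27.L1.H34.GM
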