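import Pool.Agent.H27.L1.H34.GM.TH1

/-!
Row EG1 of the board gmf (page H34_GM.md): one double coset.
-/

set_option autoImplicit false

namespace Pool.Agent.H27.L1.H34.GM

open MeasureTheory Set Filter Topology

/-! ### cut-off functions -/

/-- the three properties of a smooth cut-off in the radial variable -/
def eg1E (η : ℝ → ℝ) : Prop :=
  Continuous η ∧ (∃ c > 1, ∀ t, η t ≠ 0 → c⁻¹ ≤ t ∧ t ≤ c) ∧
    ∫ t in Set.Ioi (0 : ℝ), η t / t = 1

theorem eg1_ex : ∃ η : ℝ → ℝ, eg1E η := by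
  set φ : ℝ → ℝ := fun t => max 0 (1 - |t - 2|) with hφ
  have hc : Continuous φ := by fun_prop
  have hs : ∀ t, φ t ≠ 0 → 1 ≤ t ∧ t ≤ 3 := by
    intro t ht
    by_contra hcon
    apply ht
    simp only [hφ]
    rw [max_eq_left]
    have : 1 ≤ |t - 2| := by
      rw [le_abs]
      by_contra h2
      push Not at h2
      exact hcon ⟨by linarith, by linarith⟩
    linarith
  have hcs : HasCompactSupport φ := by
    apply HasCompactSupport.of_support_subset_isCompact (isCompact_Icc (a := (1 : ℝ)) (b := 3))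
    intro t ht
    exact ⟨(hs t ht).1, (hs t ht).2⟩
  have h0 : 0 ≤ φ := fun t => le_max_left _ _
  have h2 : φ 2 ≠ 0 := by simp [hφ]
  have hI : 0 < ∫ t, φ t := hc.integral_pos_of_hasCompactSupport_nonneg_nonzero hcs h0 h2
  refine ⟨fun t => t * φ t / ∫ t, φ t, by fun_prop, ⟨3, by norm_num, ?_⟩, ?_⟩
  · intro t ht
    have h3 : φ t ≠ 0 := by
      intro h
      apply ht
      simp only [h, mul_zero, zero_div]
    obtain ⟨h4, h5⟩ := hs t h3
    exact ⟨by norm_num at h4 ⊢; linarith, h5⟩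
  · have e1 : ∫ t in Set.Ioi (0 : ℝ), t * φ t / (∫ t, φ t) / t =
        ∫ t in Set.Ioi (0 : ℝ), φ t / (∫ t, φ t) := by
      apply setIntegral_congr_fun measurableSet_Ioi
      intro t ht
      have ht0 : t ≠ 0 := ne_of_gt ht
      simp only
      field_simp
    rw [e1, integral_div, setIntegral_eq_integral_of_forall_compl_eq_zero, div_self hI.ne']
    intro t ht
    by_contra h3
    exact ht (by have := (hs t h3).1; show 0 < t; linarith)

theorem eg1_inv {η : ℝ → ℝ} (h : eg1E η) {n : ℝ} (hn : 0 < n) : eg1E (fun t => η (n / t)) := by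
  obtain ⟨hc, ⟨c, hc1, hs⟩, hI⟩ := h
  have hc0 : 0 < c := by linarith
  have hz : ∀ t, t < n / c → η (n / t) = 0 := by
    intro t ht
    by_contra h1
    obtain ⟨h2, h3⟩ := hs _ h1
    have ht0 : 0 < t := by
      by_contra h4
      have : n / t ≤ 0 := div_nonpos_of_nonneg_of_nonpos hn.le (not_lt.1 h4)
      exact absurd (h2.trans this) (not_le.2 (inv_pos.2 hc0))
    rw [div_le_iff₀ ht0] at h3
    rw [lt_div_iff₀ hc0] at ht
    nlinarith
  refine ⟨?_, ⟨max 2 (max (c / n) (n * c)), lt_of_lt_of_le (by norm_num) (le_max_left _ _), ?_⟩,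
    ?_⟩
  · rw [continuous_iff_continuousAt]
    intro t
    by_cases ht : t = 0
    · have h1 : (fun _ : ℝ => (0 : ℝ)) =ᶠ[𝓝 t] (fun t => η (n / t)) := by
        filter_upwards [eventually_lt_nhds (show t < n / c by rw [ht]; positivity)] with s hs1
        exact (hz s hs1).symm
      exact continuousAt_const.congr h1
    · exact hc.continuousAt.comp (continuousAt_const.div continuousAt_id ht)
  · intro t ht
    obtain ⟨h2, h3⟩ := hs _ ht
    have ht1 : n / c ≤ t := by
      by_contra h4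
      exact ht (hz t (not_le.1 h4))
    have ht0 : 0 < t := lt_of_lt_of_le (by positivity) ht1
    constructor
    · refine le_trans ?_ ht1
      rw [show n / c = (c / n)⁻¹ by rw [inv_div]]
      exact inv_anti₀ (by positivity) ((le_max_left _ _).trans (le_max_right _ _))
    · refine le_trans ?_ ((le_max_right _ _).trans (le_max_right _ _))
      rw [le_div_iff₀ ht0, inv_mul_le_iff₀ hc0] at h2
      linarith
  · have h1 := integral_comp_rpow_Ioi (fun y => η (n * y) / y) (p := -1) (by norm_num)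
    have h2 := integral_comp_mul_left_Ioi (fun y => η y / y * n) 0 hn
    have h3 : ∫ y in Set.Ioi (0 : ℝ), η y / y * n = n := by
      rw [integral_mul_const, hI, one_mul]
    rw [mul_zero, h3, smul_eq_mul, inv_mul_cancel₀ hn.ne'] at h2
    have e1 : ∫ x in Set.Ioi (0 : ℝ), η (n / x) / x =
        ∫ x in Set.Ioi (0 : ℝ), (|(-1 : ℝ)| * x ^ ((-1 : ℝ) - 1)) •
          (fun y => η (n * y) / y) (x ^ (-1 : ℝ)) := by
      apply setIntegral_congr_fun measurableSet_Ioi
      intro x hx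
      have hx0 : 0 < x := hx
      simp only [smul_eq_mul]
      rw [Real.rpow_neg_one, show ((-1 : ℝ) - 1) = -(2 : ℕ) by norm_num,
        Real.rpow_neg hx0.le, Real.rpow_natCast, ← div_eq_mul_inv n x]
      rw [abs_neg, abs_one]
      field_simp
    rw [e1, h1, ← h2]
    apply setIntegral_congr_fun measurableSet_Ioi
    intro x hx
    have hx0 : 0 < x := hx
    simp only
    field_simp

/-! ### the normalised determinant -/

theorem eg1_pos {m : ℕ} {z : Mat m} (hz : z.det ≠ 0) : 0 < aN z :=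
  Real.rpow_pos_of_pos (abs_pos.2 hz) _

theorem eg1_zero {m : ℕ} (hm1 : 1 ≤ m) {z : Mat m} (hz : z.det = 0) : aN z = 0 := by
  unfold aN
  rw [hz, abs_zero, Real.zero_rpow]
  have : (m : ℝ) ≠ 0 := by positivity
  exact one_div_ne_zero this

theorem eg1_mul {m : ℕ} (z w : Mat m) : aN (z * w) = aN z * aN w := by
  unfold aN
  rw [Matrix.det_mul, abs_mul, Real.mul_rpow (abs_nonneg _) (abs_nonneg _)]

theorem eg1_ainv {m : ℕ} {z : Mat m} (hz : z.det ≠ 0) : aN z⁻¹ = (aN z)⁻¹ := by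
  have h1 : aN (z * z⁻¹) = 1 := by
    rw [Matrix.mul_nonsing_inv _ (isUnit_iff_ne_zero.2 hz)]
    unfold aN
    rw [Matrix.det_one, abs_one, Real.one_rpow]
  rw [eg1_mul] at h1
  exact eq_inv_of_mul_eq_one_right h1

theorem eg1_smul {m : ℕ} (hm1 : 1 ≤ m) {c : ℝ} (hc : 0 < c) (z : Mat m) :
    aN (c • z) = c * aN z := by
  unfold aN
  rw [Matrix.det_smul, Fintype.card_fin, abs_mul, abs_pow, abs_of_pos hc,
    Real.mul_rpow (by positivity) (abs_nonneg _), one_div, Real.pow_rpow_inv_natCast hc.le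
    (by omega)]

theorem eg1_cont {m : ℕ} (hm1 : 1 ≤ m) : Continuous (fun z : Mat m => aN z) := by
  have h1 : Continuous (fun z : Mat m => |z.det|) := (Continuous.matrix_det continuous_id).abs
  exact h1.rpow_const (fun z => Or.inr (by positivity))

theorem eg1_orth {m : ℕ} {u : Mat m} (hu : u * u.transpose = 1) : aN u = 1 := by
  have h1 : u.det * u.det = 1 := by
    have := congrArg Matrix.det hu
    rwa [Matrix.det_mul, Matrix.det_transpose, Matrix.det_one] at this
  have h2 : |u.det| = 1 := by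
    have h3 : |u.det| * |u.det| = 1 := by rw [← abs_mul, h1, abs_one]
    nlinarith [abs_nonneg u.det]
  unfold aN
  rw [h2, Real.one_rpow]

theorem eg1_inv_smul {m : ℕ} {c : ℝ} (hc : c ≠ 0) {z : Mat m} (hz : z.det ≠ 0) :
    (c • z)⁻¹ = c⁻¹ • z⁻¹ := by
  apply Matrix.inv_eq_right_inv
  rw [Matrix.smul_mul, Matrix.mul_smul, Matrix.mul_nonsing_inv _ (isUnit_iff_ne_zero.2 hz),
    smul_smul, mul_inv_cancel₀ hc, one_smul]

theorem eg1_phi0 {m : ℕ} (hm1 : 1 ≤ m) {Φ : Mat m → ℂ} (h : Tst m Φ) : Φ 0 = 0 := by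
  obtain ⟨c, hc, hs⟩ := h.supp
  by_contra h1
  have h2 := (hs 0 h1).2
  have : Nonempty (Fin m) := ⟨⟨0, by omega⟩⟩
  rw [Matrix.det_zero, abs_zero] at h2
  exact absurd h2 (not_le.2 (inv_pos.2 hc))

/-! ### the test function -/

theorem eg1_tst {m : ℕ} (hm1 : 1 ≤ m) {Φ : Mat m → ℂ} (h : Tst m Φ) {η : ℝ → ℝ} (hη : eg1E η)
    {s : ℝ} (hs0 : 0 < s) :
    Tst m (fun w => Φ ((s * (aN w)⁻¹) • w) * (η (aN w) : ℂ)) := by
  obtain ⟨hc, ⟨c, hc1, hs⟩, -⟩ := hη
  obtain ⟨c0, hc0, hs1⟩ := h.supp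
  have hcp : 0 < c := by linarith
  refine ⟨?_, ?_, ?_, ?_⟩
  · rw [continuous_iff_continuousAt]
    intro w
    by_cases hw : w.det = 0
    · have h1 : (fun _ : Mat m => (0 : ℂ)) =ᶠ[𝓝 w]
          (fun w => Φ ((s * (aN w)⁻¹) • w) * (η (aN w) : ℂ)) := by
        have h2 : ∀ᶠ v in 𝓝 w, aN v < c⁻¹ := by
          apply (eg1_cont hm1).continuousAt.eventually_lt continuousAt_const
          rw [eg1_zero hm1 hw]
          exact inv_pos.2 hcp
        filter_upwards [h2] with v hv
        have h3 : η (aN v) = 0 := by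
          by_contra h4
          exact absurd (hs _ h4).1 (not_le.2 hv)
        rw [h3, Complex.ofReal_zero, mul_zero]
      exact continuousAt_const.congr h1
    · have h1 : ContinuousAt (fun w : Mat m => (s * (aN w)⁻¹) • w) w :=
        (continuousAt_const.mul ((eg1_cont hm1).continuousAt.inv₀ (eg1_pos hw).ne')).smul
          continuousAt_id
      have h2 : ContinuousAt (fun w : Mat m => (η (aN w) : ℂ)) w :=
        (Complex.continuous_ofReal.comp (hc.comp (eg1_cont hm1))).continuousAt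
      exact (h.cont.continuousAt.comp h1).mul h2
  · refine ⟨max (c ^ m) (s⁻¹ * c * c0), lt_of_lt_of_le (by positivity) (le_max_left _ _), ?_⟩
    intro z hz
    have h1 : Φ ((s * (aN z)⁻¹) • z) ≠ 0 := by
      intro h2
      apply hz
      simp only [h2, zero_mul]
    have h2 : η (aN z) ≠ 0 := by
      intro h2
      apply hz
      simp only [h2, Complex.ofReal_zero, mul_zero]
    obtain ⟨h3, h4⟩ := hs _ h2
    have ha : 0 < aN z := lt_of_lt_of_le (inv_pos.2 hcp) h3
    constructor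
    · have h5 := (hs1 _ h1).1
      rw [th1_szsmul, abs_of_pos (by positivity)] at h5
      refine le_trans ?_ (le_max_right _ _)
      have h6 : sz z = s⁻¹ * aN z * (s * (aN z)⁻¹ * sz z) := by
        field_simp
      rw [h6]
      have h7 : s⁻¹ * aN z ≤ s⁻¹ * c := mul_le_mul_of_nonneg_left h4 (by positivity)
      exact mul_le_mul h7 h5 (mul_nonneg (by positivity) (norm_nonneg _)) (by positivity)
    · rw [← th1_aN_pow hm1]
      calc (max (c ^ m) (s⁻¹ * c * c0))⁻¹ ≤ (c ^ m)⁻¹ :=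
            inv_anti₀ (by positivity) (le_max_left _ _)
        _ = (c⁻¹) ^ m := by rw [inv_pow]
        _ ≤ aN z ^ m := pow_le_pow_left₀ (by positivity) h3 m
  · intro u hu z
    rw [eg1_mul, eg1_orth hu, one_mul, ← Matrix.mul_smul, h.left u hu]
  · intro u hu z
    rw [eg1_mul, eg1_orth hu, mul_one, ← Matrix.smul_mul, h.right u hu]

/-! ### integrability on the shell -/

theorem eg1_int (hM : T_MSR) (hH : T_HAR) {m : ℕ} (hm1 : 1 ≤ m) {A B : V m → ℂ} {M P c : ℝ}
    (hM0 : 0 ≤ M) (hP0 : 0 ≤ P) (hc : 0 < c)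
    (hA : AEStronglyMeasurable A ((hm m).restrict (Shell m)))
    (hB : AEStronglyMeasurable B ((hm m).restrict (Shell m))) (hAM : ∀ z, ‖A z‖ ≤ M)
    (hBP : ∀ z ∈ th1K m c, ‖B z‖ ≤ P) (hz : ∀ z ∈ Shell m, A z ≠ 0 → z ∈ th1K m c) :
    IntegrableOn (fun z => A z * B z) (Shell m) (hm m) := by
  obtain ⟨-, -, -, -, -, hSh, -, -⟩ := hM.1 m
  have hfin : hm m (th1K m c) < ⊤ := (hH m hm1).2.2.2 c hc
  have hKm : MeasurableSet (th1K m c) := (th1K_compact m c).measurableSet
  have hb : IntegrableOn ((th1K m c).indicator fun _ => M * P) (Shell m) (hm m) := by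
    have h1 : IntegrableOn (fun _ : V m => M * P) (th1K m c) (hm m) :=
      integrableOn_const hfin.ne
    exact ((integrable_indicator_iff hKm).2 h1).mono_measure Measure.restrict_le_self
  refine Integrable.mono' hb (hA.mul hB) ?_
  refine (ae_restrict_iff' hSh).2 (Filter.Eventually.of_forall fun z hzS => ?_)
  by_cases h1 : A z = 0
  · rw [h1, zero_mul, norm_zero]
    exact Set.indicator_nonneg (fun _ _ => mul_nonneg hM0 hP0) _
  · have hzK := hz z hzS h1
    rw [Set.indicator_of_mem hzK, norm_mul]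
    exact mul_le_mul (hAM _) (hBP z hzK) (norm_nonneg _) hM0

theorem eg1_bdK {m : ℕ} {B : V m → ℂ} (hB : ContinuousOn B {z | (mt z).det ≠ 0}) {c : ℝ}
    (hc : 0 < c) : ∃ P : ℝ, 0 ≤ P ∧ ∀ z ∈ th1K m c, ‖B z‖ ≤ P := by
  obtain ⟨P, hP1⟩ := (th1K_compact m c).exists_bound_of_continuousOn (hB.mono (th1K_sub hc))
  exact ⟨max P 0, le_max_right _ _, fun z hz => (hP1 z hz).trans (le_max_left _ _)⟩

/-- the inverse is bounded on the compact sets -/
theorem eg1_binv {m : ℕ} (G : Mat m) {c : ℝ} (hc : 0 < c) :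
    ∃ P : ℝ, 0 ≤ P ∧ ∀ w : Mat m, sz w ≤ c → c⁻¹ ≤ |w.det| → sz (G * w⁻¹) ≤ P := by
  have h1 : ContinuousOn (fun z : V m => ((fun i j => (G * (mt z)⁻¹) i j) : V m))
      (th1K m c) := by
    intro z hz
    have hd : (mt z).det ≠ 0 := th1K_sub hc hz
    have h2 : ContinuousAt (fun z : Mat m => z⁻¹) (mt z) := by
      apply continuousAt_matrix_inv
      rw [Ring.inverse_eq_inv']
      exact continuousAt_inv₀ hd
    have h3 : ContinuousAt (fun z : V m => (mt z)⁻¹) z :=
      ContinuousAt.comp (g := fun z : Mat m => z⁻¹) (f := fun z : V m => mt z) h2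
        th1_cmt.continuousAt
    have h4 : Continuous (fun w : Mat m => ((fun i j => (G * w) i j) : V m)) := by
      have : Continuous (fun w : Mat m => G * w) := by fun_prop
      exact this
    exact (h4.continuousAt.comp h3).continuousWithinAt
  obtain ⟨P, hP⟩ := (th1K_compact m c).exists_bound_of_continuousOn h1
  refine ⟨max P 0, le_max_right _ _, fun w h2 h3 => ?_⟩
  have h4 := hP (fun i j => w i j) ⟨h2, h3⟩
  exact h4.trans (le_max_left _ _)

/-- the argument of the kernel for one double coset -/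
theorem eg1_kk {m : ℕ} (r : ℝ) {ρ g z : Mat m} (hρ : ρ.det ≠ 0) (hg : g.det ≠ 0)
    (hz : z.det ≠ 0) : kk r z ρ g =
      ((r * (aN ρ)⁻¹)⁻¹ * (aN (z⁻¹ * (ρ * g)))⁻¹) • (z⁻¹ * (ρ * g)) := by
  unfold kk
  rw [eg1_mul, eg1_mul, eg1_ainv hz, Matrix.mul_assoc]
  congr 1
  have h1 := (eg1_pos hρ).ne'
  have h2 := (eg1_pos hg).ne'
  have h3 := (eg1_pos hz).ne'
  by_cases hr : r = 0
  · simp [hr]
  · field_simp

theorem eg1_kk0 {m : ℕ} (r : ℝ) {ρ g z : Mat m} (hz : z.det = 0) : kk r z ρ g = 0 := by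
  unfold kk
  rw [Matrix.nonsing_inv_apply_not_isUnit z (by rw [hz]; exact not_isUnit_zero),
    Matrix.zero_mul, Matrix.zero_mul, smul_zero]

theorem eg1_comp {m : ℕ} {f : V m → ℂ} (hf : Measurable f) {w : V m → V m}
    (hw : Measurable w) : Measurable fun z => f (w z) := hf.comp hw

theorem eg1_mkk {m : ℕ} (hM : T_MSR) (r : ℝ) (ρ g : Mat m) :
    Measurable fun z : V m => ((fun i j => kk r (mt z) ρ g i j) : V m) := by
  obtain ⟨_, _, _, _, _, _, h1, _⟩ := hM.1 m
  have h3 : Measurable fun z : V m => (z, ((fun i j => g i j : V m))) :=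
    measurable_id.prodMk measurable_const
  have h4 := (h1 r ρ).comp h3
  have h5 : mt (fun i j => g i j : V m) = g := by
    ext i j
    rfl
  have h6 : ((fun p : V m × V m => ((fun i j => kk r (mt p.1) ρ (mt p.2) i j) : V m)) ∘
      fun z : V m => (z, ((fun i j => g i j : V m)))) =
      fun z : V m => ((fun i j => kk r (mt z) ρ (mt (fun i j => g i j : V m)) i j) : V m) := by
    funext z
    rw [Function.comp_apply]
  rw [h6, h5] at h4
  exact h4

theorem eg1_meas {m : ℕ} (hM : T_MSR) {Φ : Mat m → ℂ} (hΦ : Continuous Φ) (r : ℝ)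
    (ρ g : Mat m) : Measurable fun z : V m => Φ (kk r (mt z) ρ g) := by
  obtain ⟨_, _, _, _, _, _, _, h2⟩ := hM.1 m
  have h1 := eg1_comp (h2 Φ hΦ) (eg1_mkk hM r ρ g)
  have h3 : (fun z : V m => Φ (kk r (mt z) ρ g)) = fun z : V m =>
      Φ (mt (fun i j => kk r (mt z) ρ g i j : V m)) := by
    funext z
    congr 1
  rw [h3]
  exact h1

theorem pf_EG1 : T_MSR → T_HAR → T_HAC → T_PLC → T_PWC → T_EG1 := by
  intro hM hH hHC hPL hP m q O b d R _ _ π σ T D hS F lam mu hF Φ hΦ ρ g r y hρ hg hr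
  have hm1 := hS.ord.one_le
  obtain ⟨-, -, -, -, -, hSh, -, -⟩ := hM.1 m
  obtain ⟨c, hc, hs⟩ := hΦ.supp
  obtain ⟨M, hM0, hMb⟩ := th1_bd hΦ
  set G : Mat m := ρ * g with hG
  have hGd : G.det ≠ 0 := by
    rw [hG, Matrix.det_mul]
    exact mul_ne_zero hρ hg
  have haρ := eg1_pos hρ
  have hag := eg1_pos hg
  have haG := eg1_pos hGd
  set s : ℝ := (r * (aN ρ)⁻¹)⁻¹ with hsdef
  have hs0 : 0 < s := by positivity
  have hΦ0 := eg1_phi0 hm1 hΦ
  -- the function
  set f : V m → ℂ := fun z => Φ (kk r (mt z) ρ g) * F (mt z) y with hf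
  have hSd : Shell m ⊆ {z | (mt z).det ≠ 0} := fun z hz => th1_det_ne hm1 hz
  have hFc : ContinuousOn (fun z : V m => F (mt z) y) {z | (mt z).det ≠ 0} :=
    (hF.cont y).comp th1_cmt.continuousOn (fun z hz => hz)
  have hfS : IntegrableOn f (Shell m) (hm m) := by
    obtain ⟨P1, hP10, hP1⟩ := eg1_binv G hc
    set c1 : ℝ := max 1 (r⁻¹ * Real.exp 1 / aN g * P1) with hc1
    have hc1p : 0 < c1 := lt_of_lt_of_le one_pos (le_max_left _ _)
    obtain ⟨P, hP0, hPb⟩ := eg1_bdK hFc hc1p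
    refine eg1_int hM hH hm1 (M := M) (P := P) (c := c1) hM0 hP0 hc1p ?_
      ((hFc.mono hSd).aestronglyMeasurable hSh) (fun z => hMb _) hPb ?_
    · exact (eg1_meas hM hΦ.cont r ρ g).aestronglyMeasurable
    · intro z hz hne
      have hd := th1_det_ne hm1 hz
      have haz := eg1_pos hd
      obtain ⟨h2, h3⟩ := hs _ hne
      have h4 := hP1 _ h2 h3
      have hlam : r⁻¹ * aN (mt z) / aN g ≠ 0 := by positivity
      have h5 : kk r (mt z) ρ g = (r⁻¹ * aN (mt z) / aN g) • ((mt z)⁻¹ * G) := by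
        unfold kk
        rw [Matrix.mul_assoc]
      have h6 : ((mt z)⁻¹ * G).det ≠ 0 := by
        rw [Matrix.det_mul, Matrix.det_nonsing_inv, Ring.inverse_eq_inv']
        exact mul_ne_zero (inv_ne_zero hd) hGd
      have h7 : mt z = (r⁻¹ * aN (mt z) / aN g) • (G * (kk r (mt z) ρ g)⁻¹) := by
        rw [h5, eg1_inv_smul hlam h6, Matrix.mul_inv_rev, Matrix.nonsing_inv_nonsing_inv _
          (isUnit_iff_ne_zero.2 hd), Matrix.mul_smul, smul_smul, mul_inv_cancel₀ hlam, one_smul,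
          ← Matrix.mul_assoc, Matrix.mul_nonsing_inv _ (isUnit_iff_ne_zero.2 hGd),
          Matrix.one_mul]
      constructor
      · rw [h7, th1_szsmul, abs_of_pos (by positivity)]
        refine le_trans ?_ (le_max_right _ _)
        refine mul_le_mul ?_ h4 (norm_nonneg _) (by positivity)
        have := hz.2.le
        gcongr
      · rw [← th1_aN_pow hm1]
        exact (inv_le_one_of_one_le₀ (le_max_left _ _)).trans (one_le_pow₀ hz.1)
  refine ⟨hfS, ?_⟩
  -- scale invariance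
  have hfsc : ∀ c : ℝ, 0 < c → ∀ z, f (c • z) = f z := by
    intro c hc z
    have e0 : mt (c • z) = c • mt z := rfl
    simp only [hf]
    rw [e0]
    by_cases hd : (mt z).det = 0
    · rw [eg1_kk0 r hd, eg1_kk0 r (by rw [Matrix.det_smul, hd, mul_zero]), hΦ0, zero_mul,
        zero_mul]
    · rw [hF.scal c hc _ _ hd]
      congr 2
      unfold kk
      rw [eg1_inv_smul hc.ne' hd, eg1_smul hm1 hc, Matrix.smul_mul, Matrix.smul_mul, smul_smul]
      congr 1
      field_simp
  obtain ⟨η, hη⟩ := eg1_ex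
  have hη' := eg1_inv hη haG
  have h1 := ((hPL m hm1).2 f (fun t => η (aN G / t)) hη'.1 hη'.2.1 hη'.2.2 hfS hfsc).2
  rw [h1]
  -- the test function
  set k : Mat m → ℂ := fun w => Φ ((s * (aN w)⁻¹) • w) * (η (aN w) : ℂ) with hk
  have hkT : Tst m k := eg1_tst hm1 hΦ hη hs0
  have hk0 : k 0 = 0 := eg1_phi0 hm1 hkT
  have h2 := hF.arch k hkT G y hGd
  have h3 : ∫ z, f z * ((fun t => η (aN G / t)) (aN (mt z)) : ℂ) ∂(hm m) =
      ∫ z, k (mt z) * F (G * (mt z)⁻¹) y ∂(hm m) := by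
    have e1 := ((hHC m hm1).1 G hGd (fun z : V m => k (mt z) * F (G * (mt z)⁻¹) y)).2
    have e2 := (hHC m hm1).2 (fun z : V m => (fun z : V m => k (mt z) * F (G * (mt z)⁻¹) y)
      (fun i j => (mt z * G) i j))
    rw [← e1, ← e2]
    apply integral_congr_ae
    refine Filter.Eventually.of_forall fun z => ?_
    have e3 : mt ((fun i j => (mt ((fun i j => ((mt z)⁻¹) i j) : V m) * G) i j) : V m) =
        (mt z)⁻¹ * G := rfl
    show f z * ((η (aN G / aN (mt z)) : ℝ) : ℂ) =
      k (mt ((fun i j => (mt ((fun i j => ((mt z)⁻¹) i j) : V m) * G) i j) : V m)) *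
      F (G * (mt ((fun i j => (mt ((fun i j => ((mt z)⁻¹) i j) : V m) * G) i j) : V m))⁻¹) y
    rw [e3]
    by_cases hd : (mt z).det = 0
    · rw [Matrix.nonsing_inv_apply_not_isUnit (mt z) (by rw [hd]; exact not_isUnit_zero),
        Matrix.zero_mul, hk0, zero_mul]
      simp only [hf]
      rw [eg1_kk0 r hd, hΦ0, zero_mul, zero_mul]
    · have e4 : G * ((mt z)⁻¹ * G)⁻¹ = mt z := by
        rw [Matrix.mul_inv_rev, Matrix.nonsing_inv_nonsing_inv _ (isUnit_iff_ne_zero.2 hd),
          ← Matrix.mul_assoc, Matrix.mul_nonsing_inv _ (isUnit_iff_ne_zero.2 hGd),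
          Matrix.one_mul]
      rw [e4]
      simp only [hf, hk]
      rw [eg1_kk r hρ hg hd, ← hG, ← hsdef]
      have e5 : aN G / aN (mt z) = aN ((mt z)⁻¹ * G) := by
        rw [eg1_mul (mt z)⁻¹ G, eg1_ainv hd, div_eq_inv_mul]
      rw [e5]
      ring
  have h4 : ∫ z, k (mt z) * pw mu (mt z) ∂(hm m) = th1 Φ mu (r * (aN ρ)⁻¹) := by
    set f2 : V m → ℂ := fun z => Φ ((s * (aN (mt z))⁻¹) • mt z) * pw mu (mt z) with hf2
    have hf2S : IntegrableOn f2 (Shell m) (hm m) := by
      set c1 : ℝ := max 1 (s⁻¹ * Real.exp 1 * c) with hc1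
      have hc1p : 0 < c1 := lt_of_lt_of_le one_pos (le_max_left _ _)
      obtain ⟨P, hP0, hPb⟩ := th1_pwK hP hm1 mu hc1p
      refine eg1_int hM hH hm1 (M := M) (P := P) (c := c1) hM0 hP0 hc1p
        (th1_meas hM hΦ.cont s).aestronglyMeasurable (th1_pwmeas hP hm1 mu hSh hSd)
        (fun z => hMb _) hPb ?_
      intro z hz hne
      have haz : 0 < aN (mt z) := lt_of_lt_of_le one_pos hz.1
      have h5 := (hs _ hne).1
      rw [th1_szsmul, abs_of_pos (by positivity)] at h5
      constructor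
      · refine le_trans ?_ (le_max_right _ _)
        have h6 : sz (mt z) = s⁻¹ * aN (mt z) * (s * (aN (mt z))⁻¹ * sz (mt z)) := by
          field_simp
        rw [h6]
        have h7 : s⁻¹ * aN (mt z) ≤ s⁻¹ * Real.exp 1 :=
          mul_le_mul_of_nonneg_left hz.2.le (by positivity)
        exact mul_le_mul h7 h5 (mul_nonneg (by positivity) (norm_nonneg _)) (by positivity)
      · rw [← th1_aN_pow hm1]
        exact (inv_le_one_of_one_le₀ (le_max_left _ _)).trans (one_le_pow₀ hz.1)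
    have hf2sc : ∀ c : ℝ, 0 < c → ∀ z, f2 (c • z) = f2 z := by
      intro c hc z
      have e0 : mt (c • z) = c • mt z := rfl
      simp only [hf2]
      rw [e0]
      by_cases hd : (mt z).det = 0
      · rw [eg1_zero hm1 hd, eg1_zero hm1 (z := c • mt z) (by
          rw [Matrix.det_smul, hd, mul_zero]), inv_zero, mul_zero, zero_smul, zero_smul, hΦ0,
          zero_mul, zero_mul]
      · rw [(hP m hm1 mu).2 hF.tr0 c hc _ hd]
        congr 2
        rw [eg1_smul hm1 hc, smul_smul]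
        congr 1
        have := (eg1_pos hd).ne'
        field_simp
    have h5 := ((hPL m hm1).2 f2 η hη.1 hη.2.1 hη.2.2 hf2S hf2sc).2
    unfold th1
    show _ = ∫ z in Shell m, f2 z ∂(hm m)
    rw [h5]
    apply integral_congr_ae
    refine Filter.Eventually.of_forall fun z => ?_
    simp only [hk, hf2]
    ring
  rw [h3, h2, h4, mul_comm]

end Pool.Agent.H27.L1.H34.GM
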