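import Pool.Agent.H27.L1.H34.GM.TH1

/-!
Row ZMT of the board gmf: the local zeta integral is the Mellin transform of the local transform.
-/

set_option autoImplicit false

namespace Pool.Agent.H27.L1.H34.GM

open MeasureTheory Set Filter Topology

/-- the integrand of the zeta integral -/
noncomputable def zmtf {m : ℕ} (Φ : Mat m → ℂ) (mu : Fin m → ℂ) (w : ℂ) (z : V m) : ℂ :=
  Φ (mt z) * ((|(mt z).det| : ℝ) : ℂ) ^ w * pw mu (mt z)

theorem zmt_int (hH : T_HAR) (hP : T_PWC) {m : ℕ} (hm1 : 1 ≤ m) {Φ : Mat m → ℂ}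
    (mu : Fin m → ℂ) (h : Tst m Φ) (w : ℂ) : Integrable (zmtf Φ mu w) (hm m) := by
  obtain ⟨c, hc, hs⟩ := h.supp
  have hco : ContinuousOn (zmtf Φ mu w) {z | (mt z).det ≠ 0} := by
    refine ((h.cont.comp th1_cmt).continuousOn.mul ?_).mul
      ((hP m hm1 mu).1.comp th1_cmt.continuousOn (fun z hz => hz))
    intro z hz
    have h1 : ContinuousAt (fun z : V m => ((|(mt z).det| : ℝ) : ℂ)) z :=
      (Complex.continuous_ofReal.comp th1_cdet.abs).continuousAt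
    exact (h1.cpow continuousAt_const
      (Complex.ofReal_mem_slitPlane.2 (abs_pos.2 hz))).continuousWithinAt
  have hKc := th1K_compact m c
  have hfin : hm m (th1K m c) < ⊤ := (hH m hm1).2.2.2 c hc
  have hsupp : Function.support (zmtf Φ mu w) ⊆ th1K m c := by
    intro z hz
    have h1 : Φ (mt z) ≠ 0 := by
      intro h0
      apply hz
      unfold zmtf
      rw [h0, zero_mul, zero_mul]
    exact hs _ h1
  obtain ⟨B, hB⟩ := hKc.exists_bound_of_continuousOn (hco.mono (th1K_sub hc))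
  refine (integrableOn_iff_integrable_of_support_subset hsupp).1 ?_
  have : IsFiniteMeasure ((hm m).restrict (th1K m c)) := ⟨by simpa using hfin⟩
  refine Integrable.of_bound
    ((hco.mono (th1K_sub hc)).aestronglyMeasurable hKc.measurableSet) B ?_
  exact (ae_restrict_iff' hKc.measurableSet).2 (Filter.Eventually.of_forall fun z hz => hB z hz)

theorem zmt_pow {r : ℝ} (hr : 0 < r) (m : ℕ) (w : ℂ) :
    (((r ^ m : ℝ)) : ℂ) ^ w = (r : ℂ) ^ ((m : ℂ) * w) := by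
  have h1 : ((r : ℝ) : ℂ) ≠ 0 := by exact_mod_cast hr.ne'
  have h2 : (((r ^ m : ℝ)) : ℂ) ≠ 0 := by exact_mod_cast (pow_pos hr m).ne'
  rw [Complex.cpow_def_of_ne_zero h1, Complex.cpow_def_of_ne_zero h2,
    ← Complex.ofReal_log (pow_pos hr m).le, ← Complex.ofReal_log hr.le, Real.log_pow]
  congr 1
  push_cast
  ring

theorem zmt_loc (hM : T_MSR) (hH : T_HAR) (hP : T_PWC) {m : ℕ} (hm1 : 1 ≤ m) {Φ : Mat m → ℂ}
    (mu : Fin m → ℂ) (h : Tst m Φ) : LocallyIntegrableOn (th1 Φ mu) (Ioi 0) :=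
  ContinuousOn.locallyIntegrableOn
    (fun _ hr => (th1_cont hM hH hP hm1 mu h hr).continuousWithinAt) measurableSet_Ioi

theorem zmt_top (hT : T_TH1) {m : ℕ} (hm1 : 1 ≤ m) {Φ : Mat m → ℂ} (mu : Fin m → ℂ)
    (h : Tst m Φ) (h0 : ∑ j, mu j = 0) (a : ℝ) :
    (th1 Φ mu) =O[atTop] (fun t : ℝ => t ^ (-a)) := by
  obtain ⟨c, hc, hs, -⟩ := hT m Φ mu hm1 h h0
  have h1 : th1 Φ mu =ᶠ[atTop] fun _ => (0 : ℂ) := by
    filter_upwards [eventually_gt_atTop c] with r hr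
    by_contra hne
    exact absurd (hs r (hc.trans hr) hne).2 (not_le.2 hr)
  exact h1.trans_isBigO (Asymptotics.isBigO_zero _ _)

theorem zmt_bot (hT : T_TH1) {m : ℕ} (hm1 : 1 ≤ m) {Φ : Mat m → ℂ} (mu : Fin m → ℂ)
    (h : Tst m Φ) (h0 : ∑ j, mu j = 0) (a : ℝ) :
    (th1 Φ mu) =O[𝓝[>] 0] (fun t : ℝ => t ^ (-a)) := by
  obtain ⟨c, hc, hs, -⟩ := hT m Φ mu hm1 h h0
  have h1 : th1 Φ mu =ᶠ[𝓝[>] 0] fun _ => (0 : ℂ) := by
    filter_upwards [Ioo_mem_nhdsGT (inv_pos.2 hc)] with r hr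
    by_contra hne
    exact absurd (hs r hr.1 hne).1 (not_le.2 hr.2)
  exact h1.trans_isBigO (Asymptotics.isBigO_zero _ _)

theorem zmt_eq (hH : T_HAR) (hPL : T_PLC) (hP : T_PWC) (hSh : ∀ m, MeasurableSet (Shell m))
    {m : ℕ} (hm1 : 1 ≤ m) {Φ : Mat m → ℂ} (mu : Fin m → ℂ) (h : Tst m Φ)
    (h0 : ∑ j, mu j = 0) (s : ℂ) :
    Zf Φ mu s = mellin (th1 Φ mu) (-((m : ℂ) * (s + ((m : ℂ) - 1) / 2))) := by
  set w : ℂ := s + ((m : ℂ) - 1) / 2 with hw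
  have h1 := ((hPL m hm1).1 (zmtf Φ mu w) (zmt_int hH hP hm1 mu h w)).2.2
  have h2 : Zf Φ mu s = ∫ z, zmtf Φ mu w z ∂(hm m) := rfl
  rw [h2, h1, ← mellin_comp_inv]
  unfold mellin
  refine setIntegral_congr_fun measurableSet_Ioi fun r hr => ?_
  have hr' : (0 : ℝ) < r := hr
  have hrc : ((r : ℝ) : ℂ) ≠ 0 := by exact_mod_cast hr'.ne'
  have h3 : ∫ z in Shell m, zmtf Φ mu w ((r * (aN (mt z))⁻¹) • z) ∂(hm m) =
      (r : ℂ) ^ ((m : ℂ) * w) * th1 Φ mu r⁻¹ := by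
    unfold th1
    rw [← integral_const_mul]
    refine setIntegral_congr_fun (hSh m) fun z hz => ?_
    have hd := th1_det_ne hm1 hz
    have ha0 : 0 < aN (mt z) := lt_of_lt_of_le one_pos hz.1
    have e1 : mt ((r * (aN (mt z))⁻¹) • z) = (r * (aN (mt z))⁻¹) • mt z := rfl
    show Φ (mt ((r * (aN (mt z))⁻¹) • z)) *
      ((|(mt ((r * (aN (mt z))⁻¹) • z)).det| : ℝ) : ℂ) ^ w *
      pw mu (mt ((r * (aN (mt z))⁻¹) • z)) = _
    rw [e1, th1_det_norm hm1 hd hr', zmt_pow hr',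
      (hP m hm1 mu).2 h0 _ (mul_pos hr' (inv_pos.2 ha0)) _ hd, inv_inv]
    ring
  show (∫ z in Shell m, zmtf Φ mu w ((r * (aN (mt z))⁻¹) • z) ∂(hm m)) * (r : ℂ)⁻¹ =
    (r : ℂ) ^ ((m : ℂ) * w - 1) • th1 Φ mu r⁻¹
  rw [h3, Complex.cpow_sub _ _ hrc, Complex.cpow_one, smul_eq_mul]
  ring

theorem pf_ZMT : T_MSR → T_HAR → T_PLC → T_PWC → T_TH1 → T_ZMT := by
  intro hM hH hPL hP hT m Φ mu hm1 h h0
  have hSh : ∀ m, MeasurableSet (Shell m) := fun m => (hM.1 m).2.2.2.2.2.1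
  have heq := fun s => zmt_eq hH hPL hP hSh hm1 mu h h0 s
  have hloc := zmt_loc hM hH hP hm1 mu h
  constructor
  · have h1 : Zf Φ mu = fun s => mellin (th1 Φ mu) (-((m : ℂ) * (s + ((m : ℂ) - 1) / 2))) :=
      funext heq
    rw [h1]
    intro s
    have h2 : DifferentiableAt ℂ (mellin (th1 Φ mu)) (-((m : ℂ) * (s + ((m : ℂ) - 1) / 2))) :=
      mellin_differentiableAt_of_isBigO_rpow hloc (zmt_top hT hm1 mu h h0 _)
        (lt_add_one _) (zmt_bot hT hm1 mu h h0 _) (sub_one_lt _)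
    have h3 : DifferentiableAt ℂ (fun s : ℂ => -((m : ℂ) * (s + ((m : ℂ) - 1) / 2))) s := by
      fun_prop
    exact DifferentiableAt.comp (g := mellin (th1 Φ mu))
      (f := fun s : ℂ => -((m : ℂ) * (s + ((m : ℂ) - 1) / 2))) s h2 h3
  · intro s
    have h2 : MellinConvergent (th1 Φ mu) (-((m : ℂ) * (s + ((m : ℂ) - 1) / 2))) :=
      mellinConvergent_of_isBigO_rpow hloc (zmt_top hT hm1 mu h h0 _)
        (lt_add_one _) (zmt_bot hT hm1 mu h h0 _) (sub_one_lt _)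
    have h4 : (fun r : ℝ => th1 Φ mu r *
        (r : ℂ) ^ (-((m : ℂ) * (s + ((m : ℂ) - 1) / 2)) - 1)) =
        fun r : ℝ => (r : ℂ) ^ (-((m : ℂ) * (s + ((m : ℂ) - 1) / 2)) - 1) • th1 Φ mu r := by
      funext r
      rw [smul_eq_mul, mul_comm]
    rw [h4]
    exact ⟨h2, (heq s).symm⟩

end Pool.Agent.H27.L1.H34.GM
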