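import Pool.Agent.H27.L1.H34.GM.Targets2

/-!
Row ZLB: lower bound for the local zeta integral.
-/

namespace Pool.Agent.H27.L1.H34.GM

open MeasureTheory

lemma zlb_cmt {m : ℕ} : Continuous (fun z : V m => mt z) := continuous_id

lemma zlb_det {m : ℕ} : Measurable (fun z : V m => (mt z).det) :=
  ((zlb_cmt (m := m)).matrix_det).measurable

lemma zlb_mnr {m : ℕ} (j : ℕ) : Measurable (fun z : V m => mnr (mt z) j) := by
  unfold mnr
  split_ifs with h
  · have hc : Continuous (fun z : V m => ((mt z).transpose * mt z).submatrix (Fin.castLE h)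
        (Fin.castLE h)) := by
      refine Continuous.matrix_submatrix ?_ _ _
      exact (zlb_cmt (m := m)).matrix_transpose.matrix_mul (zlb_cmt (m := m))
    exact hc.matrix_det.measurable
  · exact measurable_const

lemma zlb_pw {m : ℕ} (mu : Fin m → ℂ) : Measurable (fun z : V m => pw mu (mt z)) := by
  unfold pw
  refine Finset.measurable_prod _ (fun j _ => ?_)
  refine Measurable.pow_const ?_ _
  exact Complex.measurable_ofReal.comp ((zlb_mnr _).div (zlb_mnr _))

/-- the sum of squares -/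
noncomputable def zlbS {m : ℕ} (z : Mat m) : ℝ := ∑ i, ∑ j, ((z.transpose * z - 1) i j) ^ 2

lemma zlb_ball {m : ℕ} (hm1 : 1 ≤ m) (z : Mat m) (ε : ℝ) (h0 : 0 < ε) (h1 : ε ≤ 1)
    (hz : ∀ i j, |z i j - (1 : Mat m) i j| ≤ ε) : zlbS z ≤ (3 * m ^ 2 * ε) ^ 2 := by
  have hmR : (1 : ℝ) ≤ m := by exact_mod_cast hm1
  set X : Mat m := z - 1 with hX
  have hXe : ∀ i j, |X i j| ≤ ε := fun i j => by
    have := hz i j
    rwa [hX, Matrix.sub_apply]
  have hzz : z.transpose * z - 1 = X + X.transpose + X.transpose * X := by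
    have : z = 1 + X := by rw [hX]; abel
    rw [this, Matrix.transpose_add, Matrix.transpose_one]
    noncomm_ring
  have hent : ∀ i j, |(z.transpose * z - 1) i j| ≤ 3 * m * ε := by
    intro i j
    rw [hzz, Matrix.add_apply, Matrix.add_apply, Matrix.mul_apply, Matrix.transpose_apply]
    have h2 : |∑ k, X.transpose i k * X k j| ≤ m * ε := by
      calc |∑ k, X.transpose i k * X k j| ≤ ∑ k : Fin m, |X.transpose i k * X k j| :=
            Finset.abs_sum_le_sum_abs _ _
        _ ≤ ∑ _k : Fin m, ε * 1 := by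
            refine Finset.sum_le_sum (fun k _ => ?_)
            rw [abs_mul, Matrix.transpose_apply]
            exact mul_le_mul (hXe k i) ((hXe k j).trans h1) (abs_nonneg _) h0.le
        _ = m * ε := by simp
    have h3 := hXe i j
    have h4 := hXe j i
    have h5 : |X i j + X j i + ∑ k, X.transpose i k * X k j| ≤ ε + ε + m * ε := by
      refine (abs_add_le _ _).trans (add_le_add ((abs_add_le _ _).trans (add_le_add h3 h4)) h2)
    refine h5.trans ?_
    nlinarith
  unfold zlbS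
  calc ∑ i, ∑ j, ((z.transpose * z - 1) i j) ^ 2 ≤ ∑ _i : Fin m, ∑ _j : Fin m, (3 * m * ε) ^ 2 := by
        refine Finset.sum_le_sum (fun i _ => Finset.sum_le_sum (fun j _ => ?_))
        rw [← sq_abs]
        exact pow_le_pow_left₀ (abs_nonneg _) (hent i j) 2
    _ = (3 * m ^ 2 * ε) ^ 2 := by
        simp
        ring

/-- the volume of the cube -/
lemma zlb_vol {m : ℕ} (ε : ℝ) (h0 : 0 ≤ ε) (x : V m) :
    volume (Metric.closedBall x ε) = ENNReal.ofReal ((2 * ε) ^ (m * m)) := by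
  rw [MeasureTheory.volume_pi_closedBall _ h0]
  simp only [Real.volume_pi_closedBall _ h0, Fintype.card_fin, Finset.prod_const,
    Finset.card_univ]
  rw [← ENNReal.ofReal_pow (by positivity), ← pow_mul]

lemma zlb_hm {m : ℕ} (hm1 : 1 ≤ m) (δ : ℝ) (h0 : 0 < δ) (h1 : δ ≤ 1)
    (hd : ∀ z : Mat m, zlbS z ≤ δ ^ 2 / 4 → z.det ≠ 0) :
    ENNReal.ofReal ((((m.factorial : ℝ) * 2 ^ m) ^ m)⁻¹ * ((3 * (m : ℝ) ^ 2)⁻¹) ^ (m ^ 2) *
      δ ^ (m ^ 2)) ≤ hm m {z | zlbS (mt z) ≤ δ ^ 2 / 4} := by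
  have hmR : (1 : ℝ) ≤ m := by exact_mod_cast hm1
  set ε : ℝ := δ / (6 * m ^ 2) with hε
  have hε0 : 0 < ε := by positivity
  have hε1 : ε ≤ 1 := by
    rw [hε, div_le_one (by positivity)]
    nlinarith [one_le_pow₀ hmR (n := 2)]
  set B : Set (V m) := Metric.closedBall (fun i j => (1 : Mat m) i j) ε with hB
  have hBm : MeasurableSet B := measurableSet_closedBall
  have hBe : ∀ z ∈ B, ∀ i j, |(mt z) i j - (1 : Mat m) i j| ≤ ε := by
    intro z hz i j
    have h2 : ‖z - (fun i j => (1 : Mat m) i j)‖ ≤ ε := by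
      rw [hB, Metric.mem_closedBall, dist_eq_norm] at hz
      exact hz
    have h3 := (norm_le_pi_norm (z - (fun i j => (1 : Mat m) i j)) i).trans h2
    have h4 := (norm_le_pi_norm ((z - (fun i j => (1 : Mat m) i j)) i) j).trans h3
    exact h4
  have hsub : B ⊆ {z | zlbS (mt z) ≤ δ ^ 2 / 4} := by
    intro z hz
    have h5 := zlb_ball hm1 (mt z) ε hε0 hε1 (hBe z hz)
    refine h5.trans (le_of_eq ?_)
    rw [hε]
    field_simp
    ring
  refine le_trans ?_ (measure_mono hsub)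
  unfold hm
  rw [withDensity_apply _ hBm]
  have hlow : ∀ z ∈ B, ENNReal.ofReal ((((m.factorial : ℝ) * 2 ^ m) ^ m)⁻¹) ≤
      ENNReal.ofReal ((|(mt z).det| ^ m)⁻¹) := by
    intro z hz
    refine ENNReal.ofReal_le_ofReal ?_
    have hnear := hBe z hz
    have hS := hsub hz
    have hdet : (mt z).det ≠ 0 := hd _ hS
    have hdl : |(mt z).det| ≤ (m.factorial : ℝ) * 2 ^ m := by
      have := Matrix.det_le (A := mt z) (abv := AbsoluteValue.abs) (x := 2) (fun i j => by
        have h6 := hnear i j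
        have h7 : |(1 : Mat m) i j| ≤ 1 := by
          rw [Matrix.one_apply]
          split_ifs <;> simp
        have h8 : |(mt z) i j| ≤ |(mt z) i j - (1 : Mat m) i j| + |(1 : Mat m) i j| := by
          have := abs_add_le ((mt z) i j - (1 : Mat m) i j) ((1 : Mat m) i j)
          simpa using this
        show |(mt z) i j| ≤ 2
        linarith)
      simpa [nsmul_eq_mul] using this
    refine inv_anti₀ (pow_pos (abs_pos.2 hdet) m) ?_
    exact pow_le_pow_left₀ (abs_nonneg _) hdl m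
  calc ENNReal.ofReal ((((m.factorial : ℝ) * 2 ^ m) ^ m)⁻¹ * ((3 * (m : ℝ) ^ 2)⁻¹) ^ (m ^ 2) *
      δ ^ (m ^ 2)) = ENNReal.ofReal ((((m.factorial : ℝ) * 2 ^ m) ^ m)⁻¹) * volume B := by
        rw [hB, zlb_vol ε hε0.le, ← ENNReal.ofReal_mul (by positivity)]
        congr 1
        have hb : 2 * ε = (3 * (m : ℝ) ^ 2)⁻¹ * δ := by
          rw [hε]
          field_simp
          ring
        have he : m * m = m ^ 2 := by ring
        rw [mul_assoc, ← mul_pow, hb, he]
    _ = ∫⁻ _z in B, ENNReal.ofReal ((((m.factorial : ℝ) * 2 ^ m) ^ m)⁻¹) := by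
        rw [setLIntegral_const]
    _ ≤ ∫⁻ z in B, ENNReal.ofReal ((|(mt z).det| ^ m)⁻¹) :=
        setLIntegral_mono' hBm hlow

theorem pf_ZLB : T_HAR → T_PWN → T_BMP → T_ZLB := by
  intro HAR PWN BMP m χ hm1 hχ
  obtain ⟨C, c0, hC, hc0, hP⟩ := PWN m hm1
  obtain ⟨hB1, -⟩ := BMP m χ hm1 hχ
  have hmR : (1 : ℝ) ≤ m := by exact_mod_cast hm1
  set c : ℝ := min c0 (1 / (2 * C)) / (m + 1) with hc
  have hcpos : 0 < c := by
    have : 0 < min c0 (1 / (2 * C)) := lt_min hc0 (by positivity)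
    positivity
  refine ⟨c, (1 / 2) * ((((m.factorial : ℝ) * 2 ^ m) ^ m)⁻¹ * ((3 * (m : ℝ) ^ 2)⁻¹) ^ (m ^ 2)),
    hcpos, by positivity, ?_⟩
  intro mu s δ h0 h1 hδ
  set w : ℂ := s + ((m : ℂ) - 1) / 2 with hw
  have hsum0 : 0 ≤ ∑ j, ‖mu j‖ := Finset.sum_nonneg (fun j _ => norm_nonneg _)
  have hwn : 1 + ‖w‖ + ∑ j, ‖mu j‖ ≤ (m + 1) * (1 + ‖s‖ + ∑ j, ‖mu j‖) := by
    have h2 : ‖w‖ ≤ ‖s‖ + m := by
      rw [hw]
      refine (norm_add_le _ _).trans (add_le_add le_rfl ?_)
      have : ((m : ℂ) - 1) / 2 = (((m : ℝ) - 1) / 2 : ℝ) := by push_cast; ring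
      rw [this, Complex.norm_real, Real.norm_eq_abs, abs_of_nonneg (by linarith)]
      linarith
    nlinarith [norm_nonneg s]
  have hsmall : δ * (1 + ‖w‖ + ∑ j, ‖mu j‖) ≤ min c0 (1 / (2 * C)) := by
    calc δ * (1 + ‖w‖ + ∑ j, ‖mu j‖) ≤ δ * ((m + 1) * (1 + ‖s‖ + ∑ j, ‖mu j‖)) :=
          mul_le_mul_of_nonneg_left hwn h0.le
      _ = (m + 1) * (δ * (1 + ‖s‖ + ∑ j, ‖mu j‖)) := by ring
      _ ≤ (m + 1) * c := mul_le_mul_of_nonneg_left hδ (by positivity)
      _ = min c0 (1 / (2 * C)) := by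
        rw [hc]
        field_simp
  have hPz : ∀ z : Mat m, zlbS z ≤ δ ^ 2 → z.det ≠ 0 ∧
      ‖((|z.det| : ℝ) : ℂ) ^ w * pw mu z - 1‖ ≤ 1 / 2 := by
    intro z hz
    obtain ⟨h2, h3⟩ := hP mu w δ z h0 hz (hsmall.trans (min_le_left _ _))
    refine ⟨h2, h3.trans ?_⟩
    have h4 := hsmall.trans (min_le_right _ _)
    calc C * δ * (1 + ‖w‖ + ∑ j, ‖mu j‖) = C * (δ * (1 + ‖w‖ + ∑ j, ‖mu j‖)) := by ring
      _ ≤ C * (1 / (2 * C)) := mul_le_mul_of_nonneg_left h4 hC.le
      _ = 1 / 2 := by field_simp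
  obtain ⟨hTst, hsm, hcs, hbd, hsupp⟩ := hB1 δ h0 h1
  obtain ⟨c', hc', hU⟩ := hTst.supp
  set U : Set (V m) := {z | sz (mt z) ≤ c' ∧ c'⁻¹ ≤ |(mt z).det|} with hUdef
  have hUm : MeasurableSet U := by
    have h5 : Measurable (fun z : V m => sz (mt z)) := by
      have : (fun z : V m => sz (mt z)) = fun z : V m => ‖z‖ := by
        funext z
        rfl
      rw [this]
      exact measurable_norm
    have h6 : Measurable (fun z : V m => |(mt z).det|) :=
      ((zlb_cmt (m := m)).matrix_det).abs.measurable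
    exact (measurableSet_le h5 measurable_const).inter (measurableSet_le measurable_const h6)
  have hUf : hm m U < ⊤ := (HAR m hm1).2.2.2 c' hc'
  -- the real bump
  set φ : V m → ℝ := fun z => χ (zlbS (mt z) / δ ^ 2) with hφ
  have hbump : ∀ z : V m, bump m χ δ (mt z) = ((φ z : ℝ) : ℂ) := fun z => rfl
  have hφ0 : ∀ z, 0 ≤ φ z := fun z => hχ.lo _
  have hφ1 : ∀ z, φ z ≤ 1 := fun z => hχ.hi _
  have hφm : Measurable (fun z : V m => bump m χ δ (mt z)) :=
    (hTst.cont.comp (zlb_cmt (m := m))).measurable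
  have hφm' : Measurable φ := by
    have h7 : φ = fun z => (bump m χ δ (mt z)).re := by
      funext z
      rw [hbump, Complex.ofReal_re]
    rw [h7]
    exact Complex.measurable_re.comp hφm
  have hφU : ∀ z, z ∉ U → φ z = 0 := by
    intro z hz
    by_contra hne
    refine hz (hU (mt z) ?_)
    rw [hbump]
    exact_mod_cast hne
  have hφS : ∀ z, φ z ≠ 0 → zlbS (mt z) ≤ δ ^ 2 := by
    intro z hne
    refine hsupp (mt z) ?_
    rw [hbump]
    exact_mod_cast hne
  set E : V m → ℂ := fun z => ((|(mt z).det| : ℝ) : ℂ) ^ w * pw mu (mt z) with hE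
  have hEm : Measurable E := by
    have h6 : Measurable (fun z : V m => |(mt z).det|) :=
      ((zlb_cmt (m := m)).matrix_det).abs.measurable
    exact ((Complex.measurable_ofReal.comp h6).pow_const w).mul (zlb_pw mu)
  have hE1 : ∀ z, φ z ≠ 0 → ‖E z - 1‖ ≤ 1 / 2 := fun z hz => (hPz (mt z) (hφS z hz)).2
  have hgint : Integrable (U.indicator (fun _ => (3 / 2 : ℝ))) (hm m) := by
    rw [integrable_indicator_iff hUm]
    exact integrableOn_const hUf.ne
  have hint : Integrable (fun z => ((φ z : ℝ) : ℂ) * E z) (hm m) := by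
    refine Integrable.mono' hgint
      ((Complex.measurable_ofReal.comp hφm').mul hEm).aestronglyMeasurable
      (Filter.Eventually.of_forall (fun z => ?_))
    by_cases hz : φ z = 0
    · rw [hz]
      simp only [Complex.ofReal_zero, zero_mul, norm_zero]
      exact Set.indicator_nonneg (fun _ _ => by norm_num) z
    · have hzU : z ∈ U := by
        by_contra h8
        exact hz (hφU z h8)
      rw [Set.indicator_of_mem hzU, norm_mul, Complex.norm_real, Real.norm_eq_abs,
        abs_of_nonneg (hφ0 z)]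
      have h9 : ‖E z‖ ≤ 3 / 2 := by
        have h10 := hE1 z hz
        have h11 : ‖E z‖ ≤ ‖E z - 1‖ + ‖(1 : ℂ)‖ := by
          have := norm_add_le (E z - 1) 1
          simpa using this
        rw [norm_one] at h11
        linarith
      calc φ z * ‖E z‖ ≤ 1 * (3 / 2) :=
            mul_le_mul (hφ1 z) h9 (norm_nonneg _) (by norm_num)
        _ = 3 / 2 := by ring
  have hφint : Integrable φ (hm m) := by
    refine Integrable.mono' hgint hφm'.aestronglyMeasurable
      (Filter.Eventually.of_forall (fun z => ?_))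
    by_cases hzU : z ∈ U
    · rw [Set.indicator_of_mem hzU, Real.norm_eq_abs, abs_of_nonneg (hφ0 z)]
      linarith [hφ1 z]
    · rw [hφU z hzU]
      simp only [norm_zero]
      exact Set.indicator_nonneg (fun _ _ => by norm_num) z
  have hZ : Zf (bump m χ δ) mu s = ∫ z, ((φ z : ℝ) : ℂ) * E z ∂(hm m) := by
    unfold Zf
    refine integral_congr_ae (Filter.Eventually.of_forall (fun z => ?_))
    show bump m χ δ (mt z) * ((|(mt z).det| : ℝ) : ℂ) ^ (s + ((m : ℂ) - 1) / 2) *
      pw mu (mt z) = ((φ z : ℝ) : ℂ) * E z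
    rw [hbump, hE, mul_assoc]
  have hre : (1 / 2) * ∫ z, φ z ∂(hm m) ≤ (Zf (bump m χ δ) mu s).re := by
    rw [hZ]
    have h12 : (∫ z, ((φ z : ℝ) : ℂ) * E z ∂(hm m)).re =
        ∫ z, (((φ z : ℝ) : ℂ) * E z).re ∂(hm m) := by
      exact (integral_re hint).symm
    rw [h12, ← integral_const_mul]
    refine integral_mono (hφint.const_mul _) hint.re (fun z => ?_)
    show 1 / 2 * φ z ≤ (((φ z : ℝ) : ℂ) * E z).re
    rw [Complex.re_ofReal_mul]
    by_cases hz : φ z = 0
    · rw [hz]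
      simp
    · have h10 := hE1 z hz
      have h13 : |(E z - 1).re| ≤ 1 / 2 := (Complex.abs_re_le_norm _).trans h10
      rw [Complex.sub_re, Complex.one_re] at h13
      have h14 := (abs_le.1 h13).1
      have h15 : 1 / 2 ≤ (E z).re := by linarith
      nlinarith [hφ0 z]
  have hlow : (((m.factorial : ℝ) * 2 ^ m) ^ m)⁻¹ * ((3 * (m : ℝ) ^ 2)⁻¹) ^ (m ^ 2) *
      δ ^ (m ^ 2) ≤ ∫ z, φ z ∂(hm m) := by
    have hSm : MeasurableSet {z : V m | zlbS (mt z) ≤ δ ^ 2 / 4} := by
      have h16 : Measurable (fun z : V m => zlbS (mt z)) := by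
        unfold zlbS
        refine Finset.measurable_sum _ (fun i _ => Finset.measurable_sum _ (fun j _ => ?_))
        refine Measurable.pow_const ?_ 2
        have hc2 : Continuous (fun z : V m => (mt z).transpose * mt z - 1) :=
          ((zlb_cmt (m := m)).matrix_transpose.matrix_mul (zlb_cmt (m := m))).sub
            continuous_const
        exact (hc2.matrix_elem i j).measurable
      exact measurableSet_le h16 measurable_const
    have h17 := zlb_hm hm1 δ h0 (by linarith) (fun z hz => (hPz z (by nlinarith)).1)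
    have h18 : {z : V m | zlbS (mt z) ≤ δ ^ 2 / 4} ⊆ {z | (1 : ℝ) ≤ φ z} := by
      intro z hz
      have h19 : φ z = 1 := by
        refine hχ.one _ ?_
        have h20 : 0 ≤ zlbS (mt z) := by
          unfold zlbS
          exact Finset.sum_nonneg (fun i _ => Finset.sum_nonneg (fun j _ => sq_nonneg _))
        rw [abs_of_nonneg (by positivity), div_le_iff₀ (by positivity)]
        have : zlbS (mt z) ≤ δ ^ 2 / 4 := hz
        linarith
      show 1 ≤ φ z
      rw [h19]
    have h21 : hm m {z : V m | zlbS (mt z) ≤ δ ^ 2 / 4} ≤ ∫⁻ z, ENNReal.ofReal (φ z) ∂(hm m) := by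
      rw [← lintegral_indicator_one hSm]
      refine lintegral_mono (fun z => ?_)
      by_cases hz : z ∈ {z : V m | zlbS (mt z) ≤ δ ^ 2 / 4}
      · rw [Set.indicator_of_mem hz, Pi.one_apply, ← ENNReal.ofReal_one]
        exact ENNReal.ofReal_le_ofReal (h18 hz)
      · rw [Set.indicator_of_notMem hz]
        exact bot_le
    rw [← ofReal_integral_eq_lintegral_ofReal hφint
      (Filter.Eventually.of_forall hφ0)] at h21
    exact (ENNReal.ofReal_le_ofReal_iff (integral_nonneg hφ0)).1 (h17.trans h21)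
  calc 1 / 2 * ((((m.factorial : ℝ) * 2 ^ m) ^ m)⁻¹ * ((3 * (m : ℝ) ^ 2)⁻¹) ^ (m ^ 2)) *
      δ ^ (m ^ 2) = 1 / 2 * ((((m.factorial : ℝ) * 2 ^ m) ^ m)⁻¹ *
        ((3 * (m : ℝ) ^ 2)⁻¹) ^ (m ^ 2) * δ ^ (m ^ 2)) := by ring
    _ ≤ 1 / 2 * ∫ z, φ z ∂(hm m) := mul_le_mul_of_nonneg_left hlow (by norm_num)
    _ ≤ (Zf (bump m χ δ) mu s).re := hre
    _ ≤ ‖Zf (bump m χ δ) mu s‖ := Complex.re_le_norm _

end Pool.Agent.H27.L1.H34.GM
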