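import Pool.Agent.H27.L1.H34.GM.Targets2

/-!
Row PWN of the board gm4: the power function near the orthogonal group.
-/

set_option autoImplicit false

namespace Pool.Agent.H27.L1.H34.GM

namespace PWN

/-- all leading minors of `1 + E` -/
noncomputable def G (m : ℕ) (E : V m) (j : Fin (m + 1)) : ℝ :=
  ((1 + Matrix.of E : Mat m).submatrix (Fin.castLE (Nat.lt_succ_iff.mp j.2))
    (Fin.castLE (Nat.lt_succ_iff.mp j.2))).det

theorem G_diff (m : ℕ) : DifferentiableAt ℝ (G m) 0 := by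
  have h : ContDiff ℝ 1 (G m) := by
    rw [contDiff_pi]
    intro j
    unfold G
    simp only [Matrix.det_apply', Matrix.submatrix_apply, Matrix.add_apply, Matrix.of_apply]
    refine ContDiff.sum fun σ _ => ?_
    refine contDiff_const.mul ?_
    refine contDiff_prod fun i _ => ?_
    fun_prop
  exact (h.differentiable one_ne_zero) 0

theorem G_zero (m : ℕ) (j : Fin (m + 1)) : G m 0 j = 1 := by
  unfold G
  have h : (1 + Matrix.of (0 : V m) : Mat m) = 1 := by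
    ext i k
    simp
  rw [h, Matrix.submatrix_one _ (Fin.castLE_injective _), Matrix.det_one]

theorem bound (m : ℕ) : ∃ C ε : ℝ, 1 ≤ C ∧ 0 < ε ∧ ∀ E : V m, ‖E‖ ≤ ε → ∀ j : Fin (m + 1),
    |G m E j - 1| ≤ C * ‖E‖ := by
  have h := (G_diff m).isBigO_sub
  obtain ⟨C, hC⟩ := h.bound
  rw [Metric.eventually_nhds_iff] at hC
  obtain ⟨ε, hε, hE⟩ := hC
  refine ⟨max C 1, ε / 2, le_max_right _ _, by positivity, fun E hE' j => ?_⟩
  have h1 := hE (y := E) (by rw [dist_zero_right]; linarith)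
  rw [sub_zero] at h1
  have h2 : ‖G m E j - G m 0 j‖ ≤ ‖G m E - G m 0‖ := norm_le_pi_norm (G m E - G m 0) j
  rw [G_zero, Real.norm_eq_abs] at h2
  calc |G m E j - 1| ≤ C * ‖E‖ := h2.trans h1
    _ ≤ max C 1 * ‖E‖ := by gcongr; exact le_max_left _ _

theorem log_le {x d : ℝ} (h : |x - 1| ≤ d) (hd : d ≤ 1 / 2) : 0 < x ∧ |Real.log x| ≤ 2 * d := by
  rw [abs_le] at h
  have hx : 1 / 2 ≤ x := by linarith
  have hx0 : 0 < x := by linarith
  refine ⟨hx0, ?_⟩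
  have h1 : Real.log x ≤ x - 1 := Real.log_le_sub_one_of_pos hx0
  have h2 : 1 - x⁻¹ ≤ Real.log x := Real.one_sub_inv_le_log_of_pos hx0
  have h3 : -(2 * d) ≤ 1 - x⁻¹ := by
    have : x⁻¹ ≤ 1 + 2 * d := by
      rw [inv_le_iff_one_le_mul₀ hx0]
      nlinarith
    linarith
  rw [abs_le]
  constructor <;> linarith

theorem mnr_eq {m : ℕ} (z : Mat m) (j : Fin (m + 1)) :
    mnr z (j : ℕ) = G m (fun i k => (z.transpose * z - 1) i k) j := by
  unfold mnr G
  rw [dif_pos (Nat.lt_succ_iff.mp j.2)]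
  congr 2
  ext i k
  simp

theorem mnr_top {m : ℕ} (z : Mat m) : mnr z m = z.det ^ 2 := by
  unfold mnr
  rw [dif_pos le_rfl]
  have : (Fin.castLE (le_refl m)) = id := by
    ext i
    simp
  rw [this, Matrix.submatrix_id_id, Matrix.det_mul, Matrix.det_transpose, sq]

end PWN

open PWN in
theorem pf_PWN : T_PWN := by
  intro m hm
  obtain ⟨C, ε, hC, hε, hG⟩ := bound m
  have hm1 : (1 : ℝ) ≤ m := by exact_mod_cast hm
  set A : ℝ := 4 * C * ((m : ℝ) ^ 2 + 1) with hA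
  have hA1 : 4 * C ≤ A := by
    rw [hA]
    nlinarith [mul_nonneg (by linarith : (0 : ℝ) ≤ 4 * C) (sq_nonneg (m : ℝ))]
  have hA0 : 0 < A := by linarith
  refine ⟨2 * A, min ε A⁻¹, by positivity, by positivity, ?_⟩
  intro mu w δ z hδ hz hc
  set S : ℝ := 1 + ‖w‖ + ∑ j, ‖mu j‖ with hS
  have hS1 : 1 ≤ S := by
    have : 0 ≤ ∑ j, ‖mu j‖ := Finset.sum_nonneg fun _ _ => norm_nonneg _
    have := norm_nonneg w
    linarith
  have hδS : δ ≤ δ * S := le_mul_of_one_le_right hδ.le hS1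
  have hδε : δ ≤ ε := (hδS.trans hc).trans (min_le_left _ _)
  have hAS : A * (δ * S) ≤ 1 := by
    have := hc.trans (min_le_right _ _)
    calc A * (δ * S) ≤ A * A⁻¹ := by gcongr
      _ = 1 := mul_inv_cancel₀ hA0.ne'
  have hCδ : C * δ ≤ 1 / 4 := by
    have h1 : A * δ ≤ A * (δ * S) := by gcongr
    have h2 : 4 * C * δ ≤ A * δ := by gcongr
    nlinarith
  -- the entries
  set E : V m := fun i k => (z.transpose * z - 1) i k with hEdef
  have hE : ‖E‖ ≤ δ := by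
    rw [pi_norm_le_iff_of_nonneg hδ.le]
    intro i
    rw [pi_norm_le_iff_of_nonneg hδ.le]
    intro k
    rw [Real.norm_eq_abs]
    refine abs_le_of_sq_le_sq ?_ hδ.le
    calc (E i k) ^ 2 ≤ ∑ k, ((z.transpose * z - 1) i k) ^ 2 :=
          Finset.single_le_sum (f := fun k => ((z.transpose * z - 1) i k) ^ 2)
            (fun _ _ => sq_nonneg _) (Finset.mem_univ k)
      _ ≤ ∑ i, ∑ k, ((z.transpose * z - 1) i k) ^ 2 :=
          Finset.single_le_sum (f := fun i => ∑ k, ((z.transpose * z - 1) i k) ^ 2)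
            (fun _ _ => Finset.sum_nonneg fun _ _ => sq_nonneg _) (Finset.mem_univ i)
      _ ≤ δ ^ 2 := hz
  have hmn : ∀ j : ℕ, j ≤ m → 0 < mnr z j ∧ |Real.log (mnr z j)| ≤ 2 * (C * δ) := by
    intro j hj
    have h1 := mnr_eq z ⟨j, Nat.lt_succ_iff.mpr hj⟩
    have h2 := hG E (hE.trans hδε) ⟨j, Nat.lt_succ_iff.mpr hj⟩
    simp only at h1
    rw [h1]
    refine log_le (h2.trans ?_) (by linarith)
    gcongr
  have hdet : z.det ≠ 0 := by
    have := (hmn m le_rfl).1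
    rw [mnr_top] at this
    intro h
    rw [h] at this
    norm_num at this
  refine ⟨hdet, ?_⟩
  have hdabs : 0 < |z.det| := abs_pos.mpr hdet
  have hlogd : |Real.log (|z.det|)| ≤ C * δ := by
    have h1 := (hmn m le_rfl).2
    rw [mnr_top, ← sq_abs, Real.log_pow, Nat.cast_ofNat, abs_mul, abs_two] at h1
    linarith
  -- exponentials
  set e : Fin m → ℂ := fun j => (-(mu j) + (2 * ((j : ℕ) + 1 : ℂ) - m - 1) / 2) / 2 with he
  set l : Fin m → ℝ := fun j => Real.log (mnr z ((j : ℕ) + 1) / mnr z (j : ℕ)) with hl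
  have hr : ∀ j : Fin m, 0 < mnr z ((j : ℕ) + 1) / mnr z (j : ℕ) := fun j =>
    div_pos (hmn _ j.2).1 (hmn _ j.2.le).1
  have hll : ∀ j : Fin m, |l j| ≤ 4 * (C * δ) := by
    intro j
    have h1 := hmn ((j : ℕ) + 1) j.2
    have h2 := hmn (j : ℕ) j.2.le
    simp only [hl]
    rw [Real.log_div h1.1.ne' h2.1.ne']
    calc |Real.log (mnr z ((j : ℕ) + 1)) - Real.log (mnr z (j : ℕ))| ≤
        |Real.log (mnr z ((j : ℕ) + 1))| + |Real.log (mnr z (j : ℕ))| := abs_sub _ _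
      _ ≤ 4 * (C * δ) := by linarith [h1.2, h2.2]
  have hexp : ((|z.det| : ℝ) : ℂ) ^ w * pw mu z =
      Complex.exp ((Real.log |z.det| : ℝ) * w + ∑ j, ((l j : ℝ) : ℂ) * e j) := by
    rw [Complex.exp_add, Complex.exp_sum]
    congr 1
    · rw [Complex.cpow_def_of_ne_zero (by exact_mod_cast hdabs.ne'), Complex.ofReal_log hdabs.le]
    · unfold pw
      refine Finset.prod_congr rfl fun j _ => ?_
      rw [Complex.cpow_def_of_ne_zero (by exact_mod_cast (hr j).ne'),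
        ← Complex.ofReal_log (hr j).le]
  have hej : ∀ j : Fin m, ‖e j‖ ≤ ‖mu j‖ + m := by
    intro j
    have h1 : (2 * ((j : ℕ) + 1 : ℂ) - m - 1) / 2 =
        (((2 * ((j : ℕ) + 1 : ℝ) - m - 1) / 2 : ℝ) : ℂ) := by
      push_cast
      ring
    have hj : ((j : ℕ) : ℝ) + 1 ≤ m := by exact_mod_cast j.2
    have hj0 : (0 : ℝ) ≤ ((j : ℕ) : ℝ) := Nat.cast_nonneg _
    have h2 : |(2 * ((j : ℕ) + 1 : ℝ) - m - 1) / 2| ≤ m := by
      rw [abs_le]
      constructor <;> linarith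
    simp only [he]
    rw [norm_div, h1]
    have h3 : ‖-(mu j) + (((2 * ((j : ℕ) + 1 : ℝ) - m - 1) / 2 : ℝ) : ℂ)‖ ≤ ‖mu j‖ + m := by
      refine (norm_add_le _ _).trans ?_
      rw [norm_neg, Complex.norm_real, Real.norm_eq_abs]
      gcongr
    have h4 : ‖(2 : ℂ)‖ = 2 := by norm_num
    rw [h4]
    have h5 : 0 ≤ ‖-(mu j) + (((2 * ((j : ℕ) + 1 : ℝ) - m - 1) / 2 : ℝ) : ℂ)‖ := norm_nonneg _
    linarith
  have hX : ‖((Real.log |z.det| : ℝ) : ℂ) * w + ∑ j, ((l j : ℝ) : ℂ) * e j‖ ≤ A * (δ * S) := by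
    have h1 : ‖((Real.log |z.det| : ℝ) : ℂ) * w‖ ≤ C * δ * ‖w‖ := by
      rw [norm_mul, Complex.norm_real, Real.norm_eq_abs]
      gcongr
    have h2 : ‖∑ j, ((l j : ℝ) : ℂ) * e j‖ ≤ ∑ j, 4 * (C * δ) * (‖mu j‖ + m) := by
      refine (norm_sum_le _ _).trans (Finset.sum_le_sum fun j _ => ?_)
      rw [norm_mul, Complex.norm_real, Real.norm_eq_abs]
      exact mul_le_mul (hll j) (hej j) (norm_nonneg _) (by positivity)
    have h3 : ∑ j, 4 * (C * δ) * (‖mu j‖ + m) = 4 * (C * δ) * (∑ j, ‖mu j‖ + (m : ℝ) ^ 2) := by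
      rw [← Finset.mul_sum, Finset.sum_add_distrib, Finset.sum_const, Finset.card_univ,
        Fintype.card_fin, nsmul_eq_mul]
      ring
    have h4 : 0 ≤ ∑ j, ‖mu j‖ := Finset.sum_nonneg fun _ _ => norm_nonneg _
    calc ‖((Real.log |z.det| : ℝ) : ℂ) * w + ∑ j, ((l j : ℝ) : ℂ) * e j‖
        ≤ C * δ * ‖w‖ + 4 * (C * δ) * (∑ j, ‖mu j‖ + (m : ℝ) ^ 2) := by
          refine (norm_add_le _ _).trans ?_
          rw [← h3]
          exact add_le_add h1 h2
      _ ≤ 4 * (C * δ) * ((m : ℝ) ^ 2 + 1) * S := by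
          have hCδ0 : 0 ≤ C * δ := by positivity
          have hw := norm_nonneg w
          have h5 : ‖w‖ + 4 * (∑ j, ‖mu j‖ + (m : ℝ) ^ 2) ≤ 4 * ((m : ℝ) ^ 2 + 1) * S := by
            rw [hS]
            have hm2 : 0 ≤ (m : ℝ) ^ 2 := sq_nonneg _
            nlinarith [mul_nonneg hm2 hw, mul_nonneg hm2 h4]
          calc C * δ * ‖w‖ + 4 * (C * δ) * (∑ j, ‖mu j‖ + (m : ℝ) ^ 2)
              = C * δ * (‖w‖ + 4 * (∑ j, ‖mu j‖ + (m : ℝ) ^ 2)) := by ring
            _ ≤ C * δ * (4 * ((m : ℝ) ^ 2 + 1) * S) := by gcongr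
            _ = _ := by ring
      _ = A * (δ * S) := by rw [hA]; ring
  rw [hexp]
  refine (Complex.norm_exp_sub_one_le (hX.trans hAS)).trans ?_
  calc 2 * ‖((Real.log |z.det| : ℝ) : ℂ) * w + ∑ j, ((l j : ℝ) : ℂ) * e j‖
      ≤ 2 * (A * (δ * S)) := by gcongr
    _ = 2 * A * δ * S := by ring

end Pool.Agent.H27.L1.H34.GM
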