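import Pool.Agent.H27.L1.H34.GM.Targets2

/-!
Row TH1 of the board gmf: the local transform has compact support in `(0,∞)` and is continuous.
-/

set_option autoImplicit false

namespace Pool.Agent.H27.L1.H34.GM

open MeasureTheory Set Filter Topology

theorem th1_cmt {m : ℕ} : Continuous (fun z : V m => mt z) := continuous_id

theorem th1_cdet {m : ℕ} : Continuous (fun z : V m => (mt z).det) :=
  Continuous.matrix_det th1_cmt

theorem th1_sz {m : ℕ} (z : V m) : sz (mt z) = ‖z‖ := rfl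

theorem th1_szsmul {m : ℕ} (c : ℝ) (z : Mat m) : sz (c • z) = |c| * sz z := by
  unfold sz
  have h : ((fun i j => (c • z) i j) : V m) = c • ((fun i j => z i j) : V m) := rfl
  rw [h, norm_smul, Real.norm_eq_abs]

theorem th1_aN_pow {m : ℕ} (hm1 : 1 ≤ m) (z : Mat m) : aN z ^ m = |z.det| := by
  unfold aN
  rw [one_div]
  exact Real.rpow_inv_natCast_pow (abs_nonneg _) (by omega)

theorem th1_aN_nonneg {m : ℕ} (z : Mat m) : 0 ≤ aN z := Real.rpow_nonneg (abs_nonneg _) _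

theorem th1_det_ne {m : ℕ} (hm1 : 1 ≤ m) {z : V m} (hz : z ∈ Shell m) : (mt z).det ≠ 0 := by
  intro h
  have h1 := th1_aN_pow hm1 (mt z)
  rw [h, abs_zero] at h1
  have h2 : (1 : ℝ) ≤ aN (mt z) := hz.1
  have h3 : (1 : ℝ) ≤ aN (mt z) ^ m := one_le_pow₀ h2
  rw [h1] at h3
  norm_num at h3

/-- the determinant of the normalised matrix -/
theorem th1_det_norm {m : ℕ} (hm1 : 1 ≤ m) {z : Mat m} (hz : z.det ≠ 0) {t : ℝ} (ht : 0 < t) :
    |((t * (aN z)⁻¹) • z).det| = t ^ m := by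
  rw [Matrix.det_smul, Fintype.card_fin, abs_mul, abs_pow, mul_comm, ← th1_aN_pow hm1 z,
    abs_of_nonneg (mul_nonneg ht.le (inv_nonneg.2 (th1_aN_nonneg z))), ← mul_pow]
  have h1 : aN z ≠ 0 := by
    intro h
    have h2 := th1_aN_pow hm1 z
    rw [h, zero_pow (by omega)] at h2
    exact hz (abs_eq_zero.1 h2.symm)
  congr 1
  field_simp

/-- the compact sets of the group -/
def th1K (m : ℕ) (c : ℝ) : Set (V m) := {z | sz (mt z) ≤ c ∧ c⁻¹ ≤ |(mt z).det|}

theorem th1K_compact (m : ℕ) (c : ℝ) : IsCompact (th1K m c) := by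
  have h1 : th1K m c = Metric.closedBall (0 : V m) c ∩ {z | c⁻¹ ≤ |(mt z).det|} := by
    ext z
    simp [th1K, th1_sz]
  rw [h1]
  exact (isCompact_closedBall _ _).inter_right (isClosed_le continuous_const th1_cdet.abs)

theorem th1K_sub {m : ℕ} {c : ℝ} (hc : 0 < c) : th1K m c ⊆ {z | (mt z).det ≠ 0} := by
  intro z hz h
  have h1 := hz.2
  rw [h, abs_zero] at h1
  exact absurd h1 (not_le.2 (inv_pos.2 hc))

theorem th1_pwK (hP : T_PWC) {m : ℕ} (hm1 : 1 ≤ m) (mu : Fin m → ℂ) {c : ℝ} (hc : 0 < c) :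
    ∃ P : ℝ, 0 ≤ P ∧ ∀ z ∈ th1K m c, ‖pw mu (mt z)‖ ≤ P := by
  have h1 : ContinuousOn (fun z : V m => pw mu (mt z)) (th1K m c) :=
    (hP m hm1 mu).1.comp th1_cmt.continuousOn (th1K_sub hc)
  obtain ⟨P, hP1⟩ := (th1K_compact m c).exists_bound_of_continuousOn h1
  exact ⟨max P 0, le_max_right _ _, fun z hz => (hP1 z hz).trans (le_max_left _ _)⟩

theorem th1_bd {m : ℕ} {Φ : Mat m → ℂ} (h : Tst m Φ) : ∃ M : ℝ, 0 ≤ M ∧ ∀ z, ‖Φ z‖ ≤ M := by
  obtain ⟨c, hc, hs⟩ := h.supp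
  have h1 : ContinuousOn (fun z : V m => Φ (mt z)) (Metric.closedBall 0 c) :=
    (h.cont.comp th1_cmt).continuousOn
  obtain ⟨M, hM⟩ := (isCompact_closedBall (0 : V m) c).exists_bound_of_continuousOn h1
  refine ⟨max M 0, le_max_right _ _, fun z => ?_⟩
  by_cases hz : Φ z = 0
  · rw [hz, norm_zero]
    exact le_max_right _ _
  · have h2 : ((fun i j => z i j) : V m) ∈ Metric.closedBall (0 : V m) c := by
      rw [mem_closedBall_zero_iff]
      exact (hs z hz).1
    exact (hM _ h2).trans (le_max_left _ _)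

/-- the determinant is bounded on balls -/
theorem th1_detbd (m : ℕ) (c : ℝ) : ∃ M : ℝ, 0 ≤ M ∧ ∀ z : Mat m, sz z ≤ c → |z.det| ≤ M := by
  obtain ⟨M, hM⟩ := (isCompact_closedBall (0 : V m) c).exists_bound_of_continuousOn
    (th1_cdet (m := m)).continuousOn
  refine ⟨max M 0, le_max_right _ _, fun z hz => ?_⟩
  have h2 : ((fun i j => z i j) : V m) ∈ Metric.closedBall (0 : V m) c := by
    rw [mem_closedBall_zero_iff]
    exact hz
  exact (hM _ h2).trans (le_max_left _ _)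

theorem th1_pwmeas (hP : T_PWC) {m : ℕ} (hm1 : 1 ≤ m) (mu : Fin m → ℂ) {μ : Measure (V m)}
    {S : Set (V m)} (hS : MeasurableSet S) (hSd : S ⊆ {z | (mt z).det ≠ 0}) :
    AEStronglyMeasurable (fun z : V m => pw mu (mt z)) (μ.restrict S) := by
  have h1 : ContinuousOn (fun z : V m => pw mu (mt z)) {z | (mt z).det ≠ 0} :=
    (hP m hm1 mu).1.comp th1_cmt.continuousOn (fun z hz => hz)
  exact (h1.mono hSd).aestronglyMeasurable hS

theorem th1_meas (hM : T_MSR) {m : ℕ} {Φ : Mat m → ℂ} (h : Continuous Φ) (r : ℝ) :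
    Measurable (fun z : V m => Φ ((r * (aN (mt z))⁻¹) • mt z)) := by
  obtain ⟨-, -, hA, -, -, -, -, hc⟩ := hM.1 m
  have h1 : Measurable (fun z : V m => (r * (aN (mt z))⁻¹) • z) :=
    (measurable_const.mul hA.inv).smul measurable_id
  exact (hc Φ h).comp h1

theorem th1_cont (hM : T_MSR) (hH : T_HAR) (hP : T_PWC) {m : ℕ} (hm1 : 1 ≤ m) {Φ : Mat m → ℂ}
    (mu : Fin m → ℂ) (h : Tst m Φ) {r0 : ℝ} (hr0 : 0 < r0) : ContinuousAt (th1 Φ mu) r0 := by
  obtain ⟨-, -, hA, -, -, hSh, -, -⟩ := hM.1 m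
  obtain ⟨c, hc, hs⟩ := h.supp
  obtain ⟨M, hM0, hMb⟩ := th1_bd h
  set c1 : ℝ := max 1 (2 * r0 * Real.exp 1 * c) with hc1
  have hc1p : 0 < c1 := lt_of_lt_of_le one_pos (le_max_left _ _)
  obtain ⟨P, hP0, hPb⟩ := th1_pwK hP hm1 mu hc1p
  have hfin : hm m (th1K m c1) < ⊤ := (hH m hm1).2.2.2 c1 hc1p
  have hKm : MeasurableSet (th1K m c1) := (th1K_compact m c1).measurableSet
  have hSd : Shell m ⊆ {z | (mt z).det ≠ 0} := fun z hz => th1_det_ne hm1 hz
  unfold th1
  have hnb : ∀ᶠ r in 𝓝 r0, 0 < r ∧ r ≤ 2 * r0 :=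
    (eventually_gt_nhds hr0).and ((eventually_lt_nhds (by linarith)).mono fun _ h => h.le)
  refine continuousAt_of_dominated (bound := (th1K m c1).indicator fun _ => M * P) ?_ ?_ ?_ ?_
  · refine Filter.Eventually.of_forall fun r => ?_
    exact (th1_meas hM h.cont r⁻¹).aestronglyMeasurable.mul (th1_pwmeas hP hm1 mu hSh hSd)
  · filter_upwards [hnb] with r hr
    refine (ae_restrict_iff' hSh).2 (Filter.Eventually.of_forall fun z hz => ?_)
    by_cases hw : Φ ((r⁻¹ * (aN (mt z))⁻¹) • mt z) = 0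
    · rw [hw, zero_mul, norm_zero]
      exact Set.indicator_nonneg (fun _ _ => mul_nonneg hM0 hP0) _
    · have h1 := (hs _ hw).1
      have ha0 : 0 < aN (mt z) := lt_of_lt_of_le one_pos hz.1
      rw [th1_szsmul, abs_of_pos (mul_pos (inv_pos.2 hr.1) (inv_pos.2 ha0))] at h1
      have h2 : sz (mt z) ≤ c1 := by
        have h3 : sz (mt z) = r * aN (mt z) * (r⁻¹ * (aN (mt z))⁻¹ * sz (mt z)) := by
          have := hr.1.ne'
          field_simp
        rw [h3]
        refine le_trans ?_ (le_max_right _ _)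
        have h4 : r * aN (mt z) ≤ 2 * r0 * Real.exp 1 :=
          mul_le_mul hr.2 hz.2.le ha0.le (by linarith)
        exact mul_le_mul h4 h1 (mul_nonneg (mul_pos (inv_pos.2 hr.1) (inv_pos.2 ha0)).le
          (norm_nonneg _)) (by positivity)
      have h5 : c1⁻¹ ≤ |(mt z).det| := by
        rw [← th1_aN_pow hm1]
        exact (inv_le_one_of_one_le₀ (le_max_left _ _)).trans (one_le_pow₀ hz.1)
      have hzK : z ∈ th1K m c1 := ⟨h2, h5⟩
      rw [Set.indicator_of_mem hzK, norm_mul]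
      exact mul_le_mul (hMb _) (hPb z hzK) (norm_nonneg _) hM0
  · have h1 : IntegrableOn (fun _ : V m => M * P) (th1K m c1) (hm m) :=
      integrableOn_const hfin.ne
    exact ((integrable_indicator_iff hKm).2 h1).mono_measure Measure.restrict_le_self
  · refine (ae_restrict_iff' hSh).2 (Filter.Eventually.of_forall fun z hz => ?_)
    have h1 : ContinuousAt (fun r : ℝ => (r⁻¹ * (aN (mt z))⁻¹) • mt z) r0 :=
      (((continuousAt_inv₀ hr0.ne').mul continuousAt_const).smul continuousAt_const)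
    exact (h.cont.continuousAt.comp h1).mul continuousAt_const

theorem pf_TH1 : T_MSR → T_HAR → T_PWC → T_TH1 := by
  intro hM hH hP m Φ mu hm1 h _
  obtain ⟨c, hc, hs⟩ := h.supp
  obtain ⟨B, hB0, hB⟩ := th1_detbd m c
  refine ⟨1 + c + B, by positivity, fun r hr hne => ?_, fun r hr =>
    (th1_cont hM hH hP hm1 mu h hr).continuousWithinAt⟩
  have h1 : ∃ z ∈ Shell m, Φ ((r⁻¹ * (aN (mt z))⁻¹) • mt z) ≠ 0 := by
    by_contra hcon
    push Not at hcon
    apply hne
    unfold th1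
    rw [setIntegral_congr_fun (g := fun _ => (0 : ℂ)) (hM.1 m).2.2.2.2.2.1
      (fun z hz => by simp only [hcon z hz, zero_mul])]
    simp
  obtain ⟨z, hz, hw⟩ := h1
  have hd := th1_det_norm hm1 (th1_det_ne hm1 hz) (inv_pos.2 hr)
  obtain ⟨h2, h3⟩ := hs _ hw
  have h4 := hB _ h2
  rw [hd] at h3 h4
  have hrm : 0 < r ^ m := pow_pos hr m
  rw [inv_pow] at h3 h4
  have h5 : r ^ m ≤ c := by
    rwa [inv_le_inv₀ hc hrm] at h3
  constructor
  · by_cases hr1 : r ≤ 1
    · have h6 : r ^ m ≤ r := pow_le_of_le_one hr.le hr1 (by omega)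
      have h7 : (1 : ℝ) ≤ B * r ^ m := by
        rwa [← div_le_iff₀ hrm, one_div]
      rw [inv_le_comm₀ (by positivity) hr]
      have h8 : r⁻¹ ≤ B := by
        rw [inv_le_iff_one_le_mul₀ hr]
        exact h7.trans (mul_le_mul_of_nonneg_left h6 hB0)
      linarith
    · have h9 : (1 + c + B)⁻¹ ≤ 1 := inv_le_one_of_one_le₀ (by linarith)
      linarith
  · by_cases hr1 : r ≤ 1
    · linarith
    · have h6 : r ≤ r ^ m := le_self_pow₀ (by linarith) (by omega)
      linarith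

end Pool.Agent.H27.L1.H34.GM
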