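import Mathlib
import Pool.Agent.H27.L1.H34.GM.Targets2

/-!
The power function is continuous on the invertible matrices and, when the parameters have sum
zero, invariant under positive scalars.
-/

namespace Pool.Agent.H27.L1.H34.GM

private lemma pwc_pos {m : ℕ} {z : Mat m} (hz : z.det ≠ 0) {j : ℕ} (hj : j ≤ m) :
    0 < mnr z j := by
  unfold mnr
  rw [dif_pos hj]
  have hinj : Function.Injective z.mulVec :=
    Matrix.mulVec_injective_iff_isUnit.mpr ((Matrix.isUnit_iff_isUnit_det z).mpr hz.isUnit)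
  have h1 : (z.transpose * z).PosDef := by
    have h2 := Matrix.PosDef.conjTranspose_mul_self z hinj
    rwa [Matrix.conjTranspose_eq_transpose_of_trivial] at h2
  exact (h1.submatrix (Fin.castLE_injective hj)).det_pos

private lemma pwc_cont {m : ℕ} (j : ℕ) : Continuous (fun z : Mat m => mnr z j) := by
  unfold mnr
  by_cases hj : j ≤ m
  · simp only [dif_pos hj]
    exact Continuous.matrix_det
      ((Continuous.matrix_mul (continuous_id.matrix_transpose) continuous_id).matrix_submatrix _ _)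
  · simp only [dif_neg hj]
    exact continuous_const

private lemma pwc_smul {m : ℕ} (z : Mat m) (c : ℝ) {j : ℕ} (hj : j ≤ m) :
    mnr (c • z) j = (c ^ 2) ^ j * mnr z j := by
  unfold mnr
  rw [dif_pos hj, dif_pos hj]
  have h1 : ((c • z).transpose * (c • z)) = (c ^ 2) • (z.transpose * z) := by
    rw [Matrix.transpose_smul, Matrix.smul_mul, Matrix.mul_smul, smul_smul, sq]
  rw [h1, Matrix.submatrix_smul]
  show ((c ^ 2) • ((z.transpose * z).submatrix (Fin.castLE hj) (Fin.castLE hj))).det = _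
  rw [Matrix.det_smul, Fintype.card_fin]

private lemma pwc_exp (m : ℕ) (mu : Fin m → ℂ) (h : ∑ j, mu j = 0) :
    ∑ j : Fin m, ((-(mu j) + (2 * ((j : ℕ) + 1 : ℂ) - m - 1) / 2) / 2) = 0 := by
  have h0 : ∀ n : ℕ, ∑ j : Fin n, (((j : ℕ) : ℂ)) = n * (n - 1) / 2 := by
    intro n
    induction n with
    | zero => simp
    | succ k ih =>
      rw [Fin.sum_univ_castSucc]
      simp only [Fin.val_castSucc, Fin.val_last]
      rw [ih]
      push_cast
      ring
  have h1 : ∀ j : Fin m, ((-(mu j) + (2 * ((j : ℕ) + 1 : ℂ) - m - 1) / 2) / 2) =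
      -(1 / 2) * mu j + (1 / 2) * ((j : ℕ) : ℂ) + (1 - (m : ℂ)) / 4 := by
    intro j
    ring
  rw [Finset.sum_congr rfl (fun j _ => h1 j), Finset.sum_add_distrib, Finset.sum_add_distrib,
    ← Finset.mul_sum, ← Finset.mul_sum, h, h0 m, Finset.sum_const, Finset.card_univ,
    Fintype.card_fin, nsmul_eq_mul]
  ring

theorem pf_PWC : T_PWC := by
  intro m hm mu
  refine ⟨?_, ?_⟩
  · unfold pw
    apply continuousOn_finset_prod
    intro j _
    have hj : (j : ℕ) + 1 ≤ m := j.isLt
    intro z hz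
    have hz0 : z.det ≠ 0 := hz
    have hp : 0 < mnr z ((j : ℕ) + 1) / mnr z (j : ℕ) :=
      div_pos (pwc_pos hz0 hj) (pwc_pos hz0 (by omega))
    apply ContinuousAt.continuousWithinAt
    have h1 : ContinuousAt (fun z : Mat m =>
        ((mnr z ((j : ℕ) + 1) / mnr z (j : ℕ) : ℝ) : ℂ)) z := by
      apply Complex.continuous_ofReal.continuousAt.comp
      exact (pwc_cont _).continuousAt.div (pwc_cont _).continuousAt
        (pwc_pos hz0 (by omega)).ne'
    exact h1.cpow continuousAt_const (Or.inl (by simpa using hp))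
  · intro hsum c hc z hz
    have hstep : ∀ j : Fin m, (((mnr (c • z) ((j : ℕ) + 1) / mnr (c • z) (j : ℕ) : ℝ)) : ℂ) ^
          ((-(mu j) + (2 * ((j : ℕ) + 1 : ℂ) - m - 1) / 2) / 2) =
        (((c ^ 2 : ℝ)) : ℂ) ^ ((-(mu j) + (2 * ((j : ℕ) + 1 : ℂ) - m - 1) / 2) / 2) *
        (((mnr z ((j : ℕ) + 1) / mnr z (j : ℕ) : ℝ)) : ℂ) ^
          ((-(mu j) + (2 * ((j : ℕ) + 1 : ℂ) - m - 1) / 2) / 2) := by
      intro j
      have hj : (j : ℕ) + 1 ≤ m := j.isLt
      have hj' : (j : ℕ) ≤ m := by omega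
      have hp1 := pwc_pos hz hj
      have hp0 := pwc_pos hz hj'
      have hc2 : (0 : ℝ) < c ^ 2 := by positivity
      have hq : mnr (c • z) ((j : ℕ) + 1) / mnr (c • z) (j : ℕ) =
          (c ^ 2) * (mnr z ((j : ℕ) + 1) / mnr z (j : ℕ)) := by
        rw [pwc_smul z c hj, pwc_smul z c hj', pow_succ]
        field_simp
      rw [hq, Complex.ofReal_mul,
        Complex.mul_cpow_ofReal_nonneg hc2.le (div_pos hp1 hp0).le]
    unfold pw
    rw [Finset.prod_congr rfl (fun j _ => hstep j), Finset.prod_mul_distrib]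
    have hc2 : ((c ^ 2 : ℝ) : ℂ) ≠ 0 := by
      have : (0 : ℝ) < c ^ 2 := by positivity
      exact_mod_cast this.ne'
    have hone : ∏ j : Fin m, (((c ^ 2 : ℝ)) : ℂ) ^
        ((-(mu j) + (2 * ((j : ℕ) + 1 : ℂ) - m - 1) / 2) / 2) = 1 := by
      rw [Finset.prod_congr rfl (fun j _ => Complex.cpow_def_of_ne_zero hc2 _),
        ← Complex.exp_sum, ← Finset.mul_sum, pwc_exp m mu hsum, mul_zero, Complex.exp_zero]
    rw [hone, one_mul]

end Pool.Agent.H27.L1.H34.GM
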